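import Pool.Agent.OD.Killing

set_option autoImplicit false

/-! Cartan subalgebras of sp_6: every Cartan subalgebra is conjugate to the diagonal one. -/

namespace Pool.Agent.OD

open Matrix Module

attribute [local instance 100] LieRing.ofAssociativeRing

/-- The algebra equivalence between matrices and endomorphisms. -/
noncomputable abbrev phi : Matrix I6 I6 ℂ ≃ₐ[ℂ] Module.End ℂ (I6 → ℂ) := Matrix.toLinAlgEquiv'

theorem aeval_sa (p : Polynomial ℂ) (X : Matrix I6 I6 ℂ) :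
    Polynomial.aeval (sa X) p = sa (Polynomial.aeval X p) := by
  induction p using Polynomial.induction_on' with
  | add p q hp hq => rw [map_add, map_add, hp, hq, sa_add]
  | monomial n a =>
    rw [Polynomial.aeval_monomial, Polynomial.aeval_monomial]
    have hpow : (sa X) ^ n = sa (X ^ n) := by
      induction n with
      | zero => simp [sa_one]
      | succ n ih => rw [pow_succ', pow_succ, ih, sa_mul]
    rw [hpow, ← Algebra.smul_def, ← Algebra.smul_def, sa_smul]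

theorem aeval_phi (p : Polynomial ℂ) (X : Matrix I6 I6 ℂ) :
    Polynomial.aeval (phi X) p = phi (Polynomial.aeval X p) := by
  rw [Polynomial.aeval_algHom_apply]

theorem isSemisimple_sa {X : Matrix I6 I6 ℂ} (h : (phi X).IsSemisimple) :
    (phi (sa X)).IsSemisimple := by
  refine Module.End.isSemisimple_of_squarefree_aeval_eq_zero (p := minpoly ℂ (phi X))
    h.minpoly_squarefree ?_
  have h1 : Polynomial.aeval (phi X) (minpoly ℂ (phi X)) = 0 := minpoly.aeval _ _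
  rw [aeval_phi] at h1
  have h2 : Polynomial.aeval X (minpoly ℂ (phi X)) = 0 := by
    apply phi.injective
    rw [h1, map_zero]
  rw [aeval_phi, aeval_sa, h2]
  simp [sa]

theorem isNilpotent_sa {X : Matrix I6 I6 ℂ} (h : IsNilpotent (phi X)) :
    IsNilpotent (phi (sa X)) := by
  obtain ⟨k, hk⟩ := h
  refine ⟨k, ?_⟩
  rw [← map_pow] at hk ⊢
  have h2 : X ^ k = 0 := by
    apply phi.injective
    rw [hk, map_zero]
  have hpow : ∀ n : ℕ, (sa X) ^ n = sa (X ^ n) := by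
    intro n
    induction n with
    | zero => simp [sa_one]
    | succ n ih => rw [pow_succ', pow_succ, ih, sa_mul]
  rw [hpow, h2]
  simp [sa]

theorem bracket_eq_zero_iff (x y : Lsp) : ⁅x, y⁆ = 0 ↔
    (x : Matrix I6 I6 ℂ) * (y : Matrix I6 I6 ℂ) = (y : Matrix I6 I6 ℂ) * (x : Matrix I6 I6 ℂ) := by
  constructor
  · intro h
    have := congrArg Subtype.val h
    change (x : Matrix I6 I6 ℂ) * (y : Matrix I6 I6 ℂ) - (y : Matrix I6 I6 ℂ) * (x : Matrix I6 I6 ℂ) = 0 at this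
    exact sub_eq_zero.mp this
  · intro h
    apply Subtype.ext
    change (x : Matrix I6 I6 ℂ) * (y : Matrix I6 I6 ℂ) - (y : Matrix I6 I6 ℂ) * (x : Matrix I6 I6 ℂ) = 0
    exact sub_eq_zero.mpr h

section Cartan

variable (H : LieSubalgebra ℂ Lsp) [hH : H.IsCartanSubalgebra]

include hH

theorem cartan_comm {x y : Lsp} (hx : x ∈ H) (hy : y ∈ H) :
    (x : Matrix I6 I6 ℂ) * (y : Matrix I6 I6 ℂ) = (y : Matrix I6 I6 ℂ) * (x : Matrix I6 I6 ℂ) := by
  have h : IsLieAbelian H := LieAlgebra.IsKilling.instIsLieAbelianOfIsCartanSubalgebra ℂ Lsp H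
  have h2 : ⁅(⟨x, hx⟩ : H), (⟨y, hy⟩ : H)⁆ = 0 := trivial_lie_zero _ _ _ _
  rw [← bracket_eq_zero_iff]
  exact congrArg Subtype.val h2

theorem cartan_of_comm {z : Lsp}
    (h : ∀ y ∈ H, (z : Matrix I6 I6 ℂ) * (y : Matrix I6 I6 ℂ) = (y : Matrix I6 I6 ℂ) * (z : Matrix I6 I6 ℂ)) :
    z ∈ H := by
  rw [← hH.self_normalizing, LieSubalgebra.mem_normalizer_iff]
  intro y hy
  rw [(bracket_eq_zero_iff z y).mpr (h y hy)]
  exact H.zero_mem

theorem cartan_nilpotent {z : Lsp} (hz : z ∈ H) (hn : IsNilpotent (z : Matrix I6 I6 ℂ)) :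
    z = 0 := by
  apply LieAlgebra.IsKilling.eq_zero_of_isNilpotent_ad_of_mem_isCartanSubalgebra ℂ Lsp H hz
  exact LieAlgebra.isNilpotent_ad_of_isNilpotent hn

theorem cartan_semisimple {x : Lsp} (hx : x ∈ H) : (phi (x : Matrix I6 I6 ℂ)).IsSemisimple := by
  set X : Matrix I6 I6 ℂ := (x : Matrix I6 I6 ℂ) with hX
  obtain ⟨n, hn, s, hs, hnil, hss, hsum⟩ := (phi X).exists_isNilpotent_isSemisimple
  obtain ⟨N, rfl⟩ := phi.surjective n
  obtain ⟨S, rfl⟩ := phi.surjective s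
  have hXNS : X = N + S := by
    apply phi.injective
    rw [hsum, map_add]
  have hNS : Commute (phi N) (phi S) := by
    have h1 : Commute (phi N) (phi X) := (Algebra.commute_of_mem_adjoin_self hn).symm
    exact Algebra.commute_of_mem_adjoin_singleton_of_commute hs h1
  have hNS' : N * S = S * N := by
    apply phi.injective
    rw [map_mul, map_mul]
    exact hNS
  have hsaX : sa X = - X := (mem_Lsp _).mp x.2
  have huniq := Module.End.isNilpotent_isSemisimple_unique (n₁ := phi N) (s₁ := phi S)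
    (n₂ := phi (-(sa N))) (s₂ := phi (-(sa S))) hnil hss
    (by rw [map_neg]; exact (isNilpotent_sa hnil).neg)
    (by rw [map_neg]; exact Module.End.isSemisimple_neg.mpr (isSemisimple_sa hss)) hNS
    (by
      change phi (-(sa N)) * phi (-(sa S)) = phi (-(sa S)) * phi (-(sa N))
      rw [← map_mul, ← map_mul, neg_mul_neg, neg_mul_neg, ← sa_mul, ← sa_mul, hNS'])
    (by
      rw [← map_add, ← map_add]
      congr 1
      rw [← neg_add, ← sa_add, ← hXNS, hsaX, neg_neg])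
  have hN : N = -(sa N) := phi.injective huniq.1
  have hNL : N ∈ Lsp := by
    rw [mem_Lsp]
    rw [eq_neg_iff_add_eq_zero, add_comm, ← eq_neg_iff_add_eq_zero]
    exact hN
  have hNH : (⟨N, hNL⟩ : Lsp) ∈ H := by
    apply cartan_of_comm
    intro y hy
    change N * (y : Matrix I6 I6 ℂ) = (y : Matrix I6 I6 ℂ) * N
    apply phi.injective
    rw [map_mul, map_mul]
    have h1 : Commute (phi (y : Matrix I6 I6 ℂ)) (phi X) := by
      change _ * _ = _ * _
      rw [← map_mul, ← map_mul, hX, cartan_comm H hx hy]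
    exact (Algebra.commute_of_mem_adjoin_singleton_of_commute hn h1).symm
  have hNn : IsNilpotent N := by
    obtain ⟨k, hk⟩ := hnil
    refine ⟨k, phi.injective ?_⟩
    rw [map_pow, hk, map_zero]
  have hN0 : (⟨N, hNL⟩ : Lsp) = 0 := cartan_nilpotent H hNH hNn
  have hN0' : N = 0 := congrArg Subtype.val hN0
  rw [hXNS, hN0', zero_add]
  exact hss

/-- Common eigenvectors of H. -/
def ComEig (v : I6 → ℂ) : Prop := ∀ x ∈ H, ∃ c : ℂ, (x : Matrix I6 I6 ℂ) *ᵥ v = c • v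

theorem span_comEig : Submodule.span ℂ {v | ComEig H v} = ⊤ := by
  rw [eq_top_iff]
  have h1 := Module.End.iSup_iInf_maxGenEigenspace_eq_top_of_iSup_maxGenEigenspace_eq_top_of_commute
    (fun x : H => phi ((x : Lsp) : Matrix I6 I6 ℂ))
    (by
      intro x y _
      change _ * _ = _ * _
      rw [← map_mul, ← map_mul, cartan_comm H x.2 y.2])
    (fun x => Module.End.iSup_maxGenEigenspace_eq_top _)
  rw [← h1]
  refine iSup_le fun χ => ?_
  intro v hv
  apply Submodule.subset_span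
  intro x hx
  refine ⟨χ ⟨x, hx⟩, ?_⟩
  rw [Submodule.mem_iInf] at hv
  have h2 := hv ⟨x, hx⟩
  rw [(Module.End.isFinitelySemisimple_iff_isSemisimple.mpr
    (cartan_semisimple H hx)).maxGenEigenspace_eq_eigenspace, Module.End.mem_eigenspace_iff] at h2
  exact h2

end Cartan

theorem ext_mulVec {A B : Matrix I6 I6 ℂ} (h : ∀ v, A *ᵥ v = B *ᵥ v) : A = B := by
  ext i j
  have := congrFun (h (Pi.single j 1)) i
  simpa using this

theorem w_adj (X : Matrix I6 I6 ℂ) (a b : I6 → ℂ) : w (X *ᵥ a) b = w a (sa X *ᵥ b) := by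
  unfold w sa
  rw [Matrix.mulVec_mulVec, Matrix.mul_neg, ← Matrix.mul_assoc, ← Matrix.mul_assoc, Om_mul_Om]
  simp only [Matrix.neg_mul, Matrix.one_mul, neg_neg]
  rw [dotProduct_comm, Matrix.dotProduct_mulVec, ← Matrix.mulVec_transpose, dotProduct_comm,
    Matrix.mulVec_mulVec]

theorem w_ext {a b : I6 → ℂ} (h : ∀ v, w v a = w v b) : a = b := by
  by_contra hne
  obtain ⟨v, hv⟩ := exists_w_ne_zero (sub_ne_zero.mpr hne)
  apply hv
  rw [w_swap, sub_eq_add_neg, w_add_right, w_neg_right, h v]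
  ring

theorem w_sub_left (a b v : I6 → ℂ) : w (a - b) v = w a v - w b v := by
  rw [w_swap, sub_eq_add_neg, w_add_right, w_neg_right, w_swap a, w_swap b]
  ring

theorem w_sub_right (a b v : I6 → ℂ) : w v (a - b) = w v a - w v b := by
  rw [sub_eq_add_neg, w_add_right, w_neg_right]
  ring

/-- The projection onto a symplectic plane. -/
def PP (u v : I6 → ℂ) : Matrix I6 I6 ℂ := vecMulVec u (Om *ᵥ v) - vecMulVec v (Om *ᵥ u)

theorem PP_mulVec (u v y : I6 → ℂ) : PP u v *ᵥ y = (w y v) • u - (w y u) • v := by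
  have h : ∀ a b : I6 → ℂ, vecMulVec a (Om *ᵥ b) *ᵥ y = (w y b) • a := by
    intro a b
    unfold w
    generalize Om *ᵥ b = z
    ext i
    simp only [Matrix.mulVec, vecMulVec, Matrix.of_apply, Pi.smul_apply, smul_eq_mul]
    simp only [dotProduct, Finset.sum_mul]
    refine Finset.sum_congr rfl fun j _ => ?_
    ring
  rw [PP, Matrix.sub_mulVec, h, h]

theorem sa_PP (u v : I6 → ℂ) : sa (PP u v) = PP u v := by
  apply ext_mulVec
  intro b
  apply w_ext
  intro a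
  rw [← w_adj, PP_mulVec, PP_mulVec, w_sub_left, w_sub_right, w_smul_left, w_smul_left,
    w_smul_right, w_smul_right, w_swap b v, w_swap b u]
  ring

theorem trace_PP (u v : I6 → ℂ) (h : w u v = 1) : (PP u v).trace = 2 := by
  unfold PP
  rw [Matrix.trace_sub, Matrix.trace_vecMulVec, Matrix.trace_vecMulVec]
  change w u v - w v u = 2
  rw [w_swap v u, h]
  norm_num

section Cartan2

variable (H : LieSubalgebra ℂ Lsp) [hH : H.IsCartanSubalgebra]

include hH

theorem peel (Q : Matrix I6 I6 ℂ) (h1 : sa Q = Q) (h2 : Q * Q = Q)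
    (h3 : ∀ x ∈ H, (x : Matrix I6 I6 ℂ) * Q = Q * (x : Matrix I6 I6 ℂ)) (h4 : Q ≠ 0) :
    ∃ u v : I6 → ℂ, Q *ᵥ u = u ∧ Q *ᵥ v = v ∧ w u v = 1 ∧
      ∀ x ∈ H, ∃ c : ℂ, (x : Matrix I6 I6 ℂ) *ᵥ u = c • u ∧ (x : Matrix I6 I6 ℂ) *ᵥ v = (-c) • v := by
  have hspan := span_comEig H
  -- a common eigenvector not killed by Q
  have hex1 : ∃ e, ComEig H e ∧ Q *ᵥ e ≠ 0 := by
    by_contra hcon
    push Not at hcon
    apply h4
    apply ext_mulVec
    intro v
    rw [Matrix.zero_mulVec]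
    have hv : v ∈ Submodule.span ℂ {v | ComEig H v} := by rw [hspan]; trivial
    induction hv using Submodule.span_induction with
    | mem x hx => exact hcon x hx
    | zero => simp
    | add x y _ _ hx hy => rw [Matrix.mulVec_add, hx, hy, add_zero]
    | smul a x _ hx => rw [Matrix.mulVec_smul, hx, smul_zero]
  obtain ⟨e, he, hQe⟩ := hex1
  have hQu : Q *ᵥ (Q *ᵥ e) = Q *ᵥ e := by rw [Matrix.mulVec_mulVec, h2]
  have hex2 : ∃ f, ComEig H f ∧ w (Q *ᵥ e) f ≠ 0 := by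
    by_contra hcon
    push Not at hcon
    obtain ⟨v, hv0⟩ := exists_w_ne_zero hQe
    apply hv0
    have hv : v ∈ Submodule.span ℂ {v | ComEig H v} := by rw [hspan]; trivial
    clear hv0
    induction hv using Submodule.span_induction with
    | mem x hx => exact hcon x hx
    | zero => simp [w]
    | add x y _ _ hx hy => rw [w_add_right, hx, hy, add_zero]
    | smul a x _ hx => rw [w_smul_right, hx, mul_zero]
  obtain ⟨f, hf, hwf⟩ := hex2
  have hwQ : w (Q *ᵥ e) (Q *ᵥ f) = w (Q *ᵥ e) f := by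
    have := w_adj Q (Q *ᵥ e) f
    rw [hQu, h1] at this
    exact this.symm
  refine ⟨Q *ᵥ e, (w (Q *ᵥ e) f)⁻¹ • (Q *ᵥ f), hQu, ?_, ?_, ?_⟩
  · rw [Matrix.mulVec_smul, Matrix.mulVec_mulVec, h2]
  · rw [w_smul_right, hwQ, inv_mul_cancel₀ hwf]
  · intro x hx
    obtain ⟨c, hc⟩ := he x hx
    obtain ⟨d, hd⟩ := hf x hx
    have hxe : (x : Matrix I6 I6 ℂ) *ᵥ (Q *ᵥ e) = c • (Q *ᵥ e) := by
      rw [Matrix.mulVec_mulVec, h3 x hx, ← Matrix.mulVec_mulVec, hc, Matrix.mulVec_smul]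
    have hxf : (x : Matrix I6 I6 ℂ) *ᵥ (Q *ᵥ f) = d • (Q *ᵥ f) := by
      rw [Matrix.mulVec_mulVec, h3 x hx, ← Matrix.mulVec_mulVec, hd, Matrix.mulVec_smul]
    have hcd : d = -c := by
      have h5 := w_adj (x : Matrix I6 I6 ℂ) (Q *ᵥ e) (Q *ᵥ f)
      rw [hxe, (mem_Lsp _).mp x.2, Matrix.neg_mulVec, hxf, w_neg_right, w_smul_left,
        w_smul_right, hwQ] at h5
      have h6 : (c + d) * w (Q *ᵥ e) f = 0 := by linear_combination h5
      rcases mul_eq_zero.mp h6 with h7 | h7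
      · linear_combination h7
      · exact absurd h7 hwf
    refine ⟨c, hxe, ?_⟩
    rw [Matrix.mulVec_smul, hxf, hcd, smul_comm]

/-- one step of the construction of a symplectic eigenbasis -/
theorem peel_step (Q : Matrix I6 I6 ℂ) (h1 : sa Q = Q) (h2 : Q * Q = Q)
    (h3 : ∀ x ∈ H, (x : Matrix I6 I6 ℂ) * Q = Q * (x : Matrix I6 I6 ℂ)) (h4 : Q.trace ≠ 0) :
    ∃ (u v : I6 → ℂ) (Q' : Matrix I6 I6 ℂ), Q *ᵥ u = u ∧ Q *ᵥ v = v ∧ w u v = 1 ∧
      (∀ x ∈ H, ∃ c : ℂ, (x : Matrix I6 I6 ℂ) *ᵥ u = c • u ∧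
        (x : Matrix I6 I6 ℂ) *ᵥ v = (-c) • v) ∧
      sa Q' = Q' ∧ Q' * Q' = Q' ∧
      (∀ x ∈ H, (x : Matrix I6 I6 ℂ) * Q' = Q' * (x : Matrix I6 I6 ℂ)) ∧
      Q'.trace = Q.trace - 2 ∧ (∀ y, Q' *ᵥ y = y → Q *ᵥ y = y ∧ w y u = 0 ∧ w y v = 0) := by
  have hQ0 : Q ≠ 0 := by
    rintro rfl
    simp at h4
  obtain ⟨u, v, hu, hv, huv, hx⟩ := peel H Q h1 h2 h3 hQ0
  have hvu : w v u = -1 := by rw [w_swap, huv]
  have hPP : PP u v * PP u v = PP u v := by
    apply ext_mulVec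
    intro y
    rw [← Matrix.mulVec_mulVec, PP_mulVec, PP_mulVec, w_sub_left, w_sub_left, w_smul_left,
      w_smul_left, w_smul_left, w_smul_left, huv, hvu, w_self, w_self]
    simp
  have hQP : Q * PP u v = PP u v := by
    apply ext_mulVec
    intro y
    rw [← Matrix.mulVec_mulVec, PP_mulVec, Matrix.mulVec_sub, Matrix.mulVec_smul,
      Matrix.mulVec_smul, hu, hv]
  have hPQ : PP u v * Q = PP u v := by
    have := congrArg sa hQP
    rwa [sa_mul, h1, sa_PP] at this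
  refine ⟨u, v, Q - PP u v, hu, hv, huv, hx, ?_, ?_, ?_, ?_, ?_⟩
  · rw [sa_sub, h1, sa_PP]
  · rw [Matrix.sub_mul, Matrix.mul_sub, Matrix.mul_sub, h2, hQP, hPQ, hPP]
    abel
  · intro x hxH
    obtain ⟨c, hc1, hc2⟩ := hx x hxH
    rw [Matrix.mul_sub, Matrix.sub_mul, h3 x hxH]
    congr 1
    apply ext_mulVec
    intro y
    rw [← Matrix.mulVec_mulVec, ← Matrix.mulVec_mulVec, PP_mulVec, PP_mulVec, Matrix.mulVec_sub,
      Matrix.mulVec_smul, Matrix.mulVec_smul, hc1, hc2, w_adj, w_adj, (mem_Lsp _).mp x.2,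
      Matrix.neg_mulVec, Matrix.neg_mulVec, hc1, hc2, w_neg_right, w_neg_right, w_smul_right,
      w_smul_right, smul_smul, smul_smul]
    congr 2 <;> ring
  · rw [Matrix.trace_sub, trace_PP u v huv]
  · intro y hy
    have hQy : Q *ᵥ y = y := by
      have h5 : Q * (Q - PP u v) = Q - PP u v := by rw [Matrix.mul_sub, h2, hQP]
      calc Q *ᵥ y = Q *ᵥ ((Q - PP u v) *ᵥ y) := by rw [hy]
        _ = (Q - PP u v) *ᵥ y := by rw [Matrix.mulVec_mulVec, h5]
        _ = y := hy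
    have hP : PP u v *ᵥ y = 0 := by
      rw [Matrix.sub_mulVec, hQy] at hy
      simpa using hy
    refine ⟨hQy, ?_, ?_⟩
    · have h6 : w (PP u v *ᵥ y) u = 0 := by rw [hP]; simp [w]
      rw [PP_mulVec, w_sub_left, w_smul_left, w_smul_left, w_self, hvu] at h6
      linear_combination h6
    · have h6 : w (PP u v *ᵥ y) v = 0 := by rw [hP]; simp [w]
      rw [PP_mulVec, w_sub_left, w_smul_left, w_smul_left, w_self, huv] at h6
      linear_combination h6

/-- Every Cartan subalgebra of sp_6 has a symplectic eigenbasis. -/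
theorem cartan_basis : ∃ U V : Fin 3 → I6 → ℂ, (∀ k l, w (U k) (U l) = 0) ∧
    (∀ k l, w (V k) (V l) = 0) ∧ (∀ k l, w (U k) (V l) = if k = l then 1 else 0) ∧
    ∀ x ∈ H, ∃ t : Fin 3 → ℂ, ∀ k, (x : Matrix I6 I6 ℂ) *ᵥ (U k) = t k • U k ∧
      (x : Matrix I6 I6 ℂ) *ᵥ (V k) = (-t k) • V k := by
  obtain ⟨u0, v0, Q1, -, -, hw0, hx0, hs1, hQ1, hc1, ht1, hk1⟩ := peel_step H 1 sa_one (by simp)
    (by simp) (by simp [Matrix.trace_one])
  have ht1' : Q1.trace = 4 := by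
    rw [ht1, Matrix.trace_one]
    simp
    norm_num
  obtain ⟨u1, v1, Q2, hu1, hv1, hw1, hx1, hs2, hQ2, hc2, ht2, hk2⟩ := peel_step H Q1 hs1 hQ1 hc1
    (by rw [ht1']; norm_num)
  have ht2' : Q2.trace = 2 := by
    rw [ht2, ht1']
    norm_num
  obtain ⟨u2, v2, Q3, hu2, hv2, hw2, hx2, hs3, hQ3, hc3, ht3, hk3⟩ := peel_step H Q2 hs2 hQ2 hc2
    (by rw [ht2']; norm_num)
  obtain ⟨-, a1, a2⟩ := hk1 u1 hu1
  obtain ⟨-, a3, a4⟩ := hk1 v1 hv1
  obtain ⟨hu2', b1, b2⟩ := hk2 u2 hu2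
  obtain ⟨hv2', b3, b4⟩ := hk2 v2 hv2
  obtain ⟨-, d1, d2⟩ := hk1 u2 hu2'
  obtain ⟨-, d3, d4⟩ := hk1 v2 hv2'
  have hneg : ∀ a b : I6 → ℂ, w a b = 0 → w b a = 0 := by
    intro a b h
    rw [w_swap, h, neg_zero]
  refine ⟨![u0, u1, u2], ![v0, v1, v2], ?_, ?_, ?_, ?_⟩
  · intro k l
    fin_cases k <;> fin_cases l <;> simp [w_self, a1, b1, d1, hneg _ _ a1, hneg _ _ b1, hneg _ _ d1]
  · intro k l
    fin_cases k <;> fin_cases l <;> simp [w_self, a4, b4, d4, hneg _ _ a4, hneg _ _ b4, hneg _ _ d4]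
  · intro k l
    fin_cases k <;> fin_cases l <;> simp [hw0, hw1, hw2, a2, b2, d2, hneg _ _ a3, hneg _ _ b3, hneg _ _ d3]
  · intro x hx
    obtain ⟨c0, e0, f0⟩ := hx0 x hx
    obtain ⟨c1, e1, f1⟩ := hx1 x hx
    obtain ⟨c2, e2, f2⟩ := hx2 x hx
    refine ⟨![c0, c1, c2], ?_⟩
    intro k
    fin_cases k <;> simp [e0, f0, e1, f1, e2, f2]

/-- The symplectic matrix with given columns. -/
def GM (U V : Fin 3 → I6 → ℂ) : Matrix I6 I6 ℂ := fun p q => if q.2 = 0 then U q.1 p else V q.1 p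

omit hH in
theorem GM_sympl {U V : Fin 3 → I6 → ℂ} (hU : ∀ k l, w (U k) (U l) = 0)
    (hV : ∀ k l, w (V k) (V l) = 0) (hUV : ∀ k l, w (U k) (V l) = if k = l then 1 else 0) :
    (GM U V)ᵀ * Om * GM U V = Om := by
  have hcol : ∀ q r : I6, ((GM U V)ᵀ * Om * GM U V) q r =
      w (fun p => GM U V p q) (fun p => GM U V p r) := by
    intro q r
    unfold w
    rw [Matrix.mul_assoc, Matrix.mul_apply, dotProduct]
    rfl
  ext ⟨k, α⟩ ⟨l, β⟩
  rw [hcol]
  have hUV' : ∀ k l, w (V k) (U l) = if k = l then -1 else 0 := by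
    intro k l
    rw [w_swap, hUV]
    by_cases h : k = l
    · simp [h]
    · have : ¬ l = k := fun h' => h h'.symm
      simp [h, this]
  have e0 : ∀ k : Fin 3, (fun p => GM U V p (k, 0)) = U k := by
    intro k; ext p; simp [GM]
  have e1 : ∀ k : Fin 3, (fun p => GM U V p (k, 1)) = V k := by
    intro k; ext p; simp [GM]
  fin_cases α <;> fin_cases β <;> simp only [Fin.zero_eta, Fin.mk_one, e0, e1, hU, hV, hUV, hUV', Om, eps] <;> simp

omit hH in
theorem sa_mul_self_of_sympl {G : Matrix I6 I6 ℂ} (h : Gᵀ * Om * G = Om) : sa G * G = 1 := by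
  have h1 : sa G * G = -(Om * (Gᵀ * Om * G)) := by
    unfold sa
    simp only [Matrix.neg_mul, Matrix.mul_assoc]
  rw [h1, h, Om_mul_Om, neg_neg]

omit hH in
theorem sa_Dg (t : Fin 3 → ℂ) : sa (Dg t) = - Dg t := by
  ext ⟨k, α⟩ ⟨l, β⟩
  fin_cases k <;> fin_cases l <;> fin_cases α <;> fin_cases β <;>
    simp [sa, Dg, Om, eps, Matrix.mul_apply, Fintype.sum_prod_type, Fin.sum_univ_succ,
      Matrix.diagonal_apply]

omit hH in
theorem Dg_comm (s t : Fin 3 → ℂ) : Dg s * Dg t = Dg t * Dg s := by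
  unfold Dg
  rw [Matrix.diagonal_mul_diagonal, Matrix.diagonal_mul_diagonal]
  congr 1
  ext p
  ring

/-- Structure of the Cartan subalgebras of sp_6: every Cartan subalgebra is conjugate to the
diagonal one under the symplectic group. -/
theorem cartan_form : ∃ G : Matrix I6 I6 ℂ, G * sa G = 1 ∧ sa G * G = 1 ∧
    ∀ x : Lsp, x ∈ H ↔ ∃ t : Fin 3 → ℂ, (x : Matrix I6 I6 ℂ) = G * Dg t * sa G := by
  obtain ⟨U, V, hU, hV, hUV, hx⟩ := cartan_basis H
  have hG1 : sa (GM U V) * GM U V = 1 := sa_mul_self_of_sympl (GM_sympl hU hV hUV)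
  have hG2 : GM U V * sa (GM U V) = 1 := mul_eq_one_comm.mp hG1
  have key : ∀ x ∈ H, ∃ t : Fin 3 → ℂ,
      (x : Matrix I6 I6 ℂ) = GM U V * Dg t * sa (GM U V) := by
    intro x hxH
    obtain ⟨t, ht⟩ := hx x hxH
    refine ⟨t, ?_⟩
    have h1 : (x : Matrix I6 I6 ℂ) * GM U V = GM U V * Dg t := by
      ext p ⟨k, α⟩
      have hl : ((x : Matrix I6 I6 ℂ) * GM U V) p (k, α) =
          ((x : Matrix I6 I6 ℂ) *ᵥ (fun q => GM U V q (k, α))) p := rfl
      rw [hl, Dg, Matrix.mul_diagonal]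
      obtain ⟨h2, h3⟩ := ht k
      have e0 : (fun p => GM U V p (k, 0)) = U k := by
        ext p; simp [GM]
      have e1 : (fun p => GM U V p (k, 1)) = V k := by
        ext p; simp [GM]
      fin_cases α
      · change ((x : Matrix I6 I6 ℂ) *ᵥ (fun q => GM U V q (k, 0))) p = _
        rw [e0, h2]
        simp [GM, mul_comm]
      · change ((x : Matrix I6 I6 ℂ) *ᵥ (fun q => GM U V q (k, 1))) p = _
        rw [e1, h3]
        simp [GM, mul_comm]
    rw [← h1, Matrix.mul_assoc, hG2, Matrix.mul_one]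
  refine ⟨GM U V, hG2, hG1, fun x => ⟨key x, ?_⟩⟩
  rintro ⟨t, ht⟩
  apply cartan_of_comm
  intro y hy
  obtain ⟨s, hs⟩ := key y hy
  rw [ht, hs]
  have h1 : ∀ a b : Fin 3 → ℂ, GM U V * Dg a * sa (GM U V) * (GM U V * Dg b * sa (GM U V)) =
      GM U V * (Dg a * Dg b) * sa (GM U V) := by
    intro a b
    have : GM U V * Dg a * sa (GM U V) * (GM U V * Dg b * sa (GM U V)) =
        GM U V * Dg a * (sa (GM U V) * GM U V) * Dg b * sa (GM U V) := by
      simp only [Matrix.mul_assoc]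
    rw [this, hG1, Matrix.mul_one, Matrix.mul_assoc (GM U V) (Dg a)]
  rw [h1, h1, Dg_comm]

end Cartan2

end Pool.Agent.OD
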