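import Mathlib

set_option autoImplicit false

/-! Final linear algebra lemma for MP_ea127f_al. -/

namespace Pool.Agent.OD

open Matrix

/-- Two isotropic, mutually orthogonal vectors of a six dimensional space which are orthogonal to
three pairwise orthogonal non isotropic vectors are linearly dependent. -/
theorem not_li_pair (f : Fin 3 → Fin 6 → ℂ) (u u' : Fin 6 → ℂ)
    (hff : ∀ l, f l ⬝ᵥ f l ≠ 0) (hfg : ∀ l m, l ≠ m → f l ⬝ᵥ f m = 0)
    (hfu : ∀ l, f l ⬝ᵥ u = 0) (hfu' : ∀ l, f l ⬝ᵥ u' = 0)
    (huu : u ⬝ᵥ u = 0) (huu' : u ⬝ᵥ u' = 0) (hu'u' : u' ⬝ᵥ u' = 0) :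
    ¬ LinearIndependent ℂ ![u, u'] := by
  intro hli
  have hpair : ∀ s t : ℂ, s • u + t • u' = 0 → s = 0 ∧ t = 0 := by
    intro s t h
    exact LinearIndependent.pair_iff.1 hli s t h
  -- the five row vectors
  let w : Matrix (Fin 5) (Fin 6) ℂ := Matrix.of ![f 0, f 1, f 2, u, u']
  have hw : LinearIndependent ℂ w.row := by
    rw [Fintype.linearIndependent_iff]
    intro g hg
    have hsum : g 0 • f 0 + g 1 • f 1 + g 2 • f 2 + g 3 • u + g 4 • u' = 0 := by
      have := hg
      simp only [Fin.sum_univ_five] at this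
      exact this
    have key : ∀ l : Fin 3, (g 0 * (f l ⬝ᵥ f 0) + g 1 * (f l ⬝ᵥ f 1) + g 2 * (f l ⬝ᵥ f 2)) = 0 := by
      intro l
      have h1 := congrArg (fun x => f l ⬝ᵥ x) hsum
      simp only [dotProduct_add, dotProduct_smul, dotProduct_zero, smul_eq_mul, hfu, hfu',
        mul_zero, add_zero] at h1
      exact h1
    have g0 : g 0 = 0 := by
      have := key 0
      rw [hfg 0 1 (by decide), hfg 0 2 (by decide)] at this
      simpa [hff 0] using this
    have g1 : g 1 = 0 := by
      have := key 1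
      rw [hfg 1 0 (by decide), hfg 1 2 (by decide)] at this
      simpa [hff 1] using this
    have g2 : g 2 = 0 := by
      have := key 2
      rw [hfg 2 0 (by decide), hfg 2 1 (by decide)] at this
      simpa [hff 2] using this
    rw [g0, g1, g2] at hsum
    have h34 := hpair (g 3) (g 4) (by simpa using hsum)
    intro i
    fin_cases i
    · exact g0
    · exact g1
    · exact g2
    · exact h34.1
    · exact h34.2
  have hrank : w.rank = 5 := by
    have := hw.rank_matrix
    simpa using this
  have hker : Module.finrank ℂ (LinearMap.ker w.mulVecLin) = 1 := by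
    have h := LinearMap.finrank_range_add_finrank_ker w.mulVecLin
    rw [← Matrix.rank, hrank] at h
    simp at h
    omega
  have hu : u ∈ LinearMap.ker w.mulVecLin := by
    rw [LinearMap.mem_ker]
    ext i
    fin_cases i
    · simpa [w, Matrix.mulVec] using hfu 0
    · simpa [w, Matrix.mulVec] using hfu 1
    · simpa [w, Matrix.mulVec] using hfu 2
    · simpa [w, Matrix.mulVec] using huu
    · have : u' ⬝ᵥ u = 0 := by rw [dotProduct_comm]; exact huu'
      simpa [w, Matrix.mulVec] using this
  have hu' : u' ∈ LinearMap.ker w.mulVecLin := by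
    rw [LinearMap.mem_ker]
    ext i
    fin_cases i
    · simpa [w, Matrix.mulVec] using hfu' 0
    · simpa [w, Matrix.mulVec] using hfu' 1
    · simpa [w, Matrix.mulVec] using hfu' 2
    · simpa [w, Matrix.mulVec] using huu'
    · simpa [w, Matrix.mulVec] using hu'u'
  have hli2 : LinearIndependent ℂ
      (![⟨u, hu⟩, ⟨u', hu'⟩] : Fin 2 → LinearMap.ker w.mulVecLin) := by
    rw [LinearIndependent.pair_iff]
    intro s t h
    apply hpair s t
    have := congrArg Subtype.val h
    simpa using this
  have := hli2.fintype_card_le_finrank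
  rw [hker] at this
  simp at this

/-- No three symmetric 6 by 6 matrices with unit diagonal, mutually annihilating, satisfy the row
relations. -/
theorem no_three_gram (G : Fin 3 → Matrix (Fin 6) (Fin 6) ℂ)
    (hsymm : ∀ k, (G k)ᵀ = G k) (hdiag : ∀ k i, G k i i = 1)
    (hprod : ∀ k l, k ≠ l → G k * G l = 0)
    (hE2 : ∀ i, ∃ γ : Fin 3 → ℂ, γ ≠ 0 ∧ ∑ k, γ k = 0 ∧ ∀ j, ∑ k, γ k * G k i j = 0) :
    False := by
  -- each G l squared is nonzero
  have hsq : ∀ l, G l * G l ≠ 0 := by
    intro l h
    have hnil : IsNilpotent (G l) := ⟨2, by rw [pow_two]; exact h⟩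
    have htr := Matrix.isNilpotent_trace_of_isNilpotent hnil
    have h0 : (G l).trace = 0 := htr.eq_zero
    have h6 : (G l).trace = 6 := by
      simp [Matrix.trace, hdiag]
    rw [h6] at h0
    norm_num at h0
  have hent : ∀ k i j, G k i j = G k j i := by
    intro k i j
    have := congrFun (congrFun (hsymm k) j) i
    simpa [Matrix.transpose_apply] using this
  -- the exceptional index
  have hm : ∀ i, ∃ m : Fin 3, ∀ l, l ≠ m → ∀ j, (G l * G l) i j = 0 := by
    intro i
    obtain ⟨γ, hγ, hs, hr⟩ := hE2 i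
    have hrow : ∀ l j, γ l * (G l * G l) i j = 0 := by
      intro l j
      have h1 : ∑ k, γ k * (G k * G l) i j = 0 := by
        have : ∀ k, γ k * (G k * G l) i j = ∑ x, (γ k * G k i x) * G l x j := by
          intro k
          rw [Matrix.mul_apply, Finset.mul_sum]
          exact Finset.sum_congr rfl fun x _ => by ring
        simp only [this]
        rw [Finset.sum_comm]
        apply Finset.sum_eq_zero
        intro x _
        rw [← Finset.sum_mul, hr x, zero_mul]
      rw [Finset.sum_eq_single l] at h1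
      · exact h1
      · intro k _ hkl
        rw [hprod k l hkl]
        simp
      · intro h
        exact absurd (Finset.mem_univ l) h
    -- at most one γ vanishes
    by_contra hcon
    push Not at hcon
    apply hγ
    have hz : ∀ m, ∃ l, l ≠ m ∧ γ l = 0 := by
      intro m
      obtain ⟨l, hl, j, hj⟩ := hcon m
      refine ⟨l, hl, ?_⟩
      rcases mul_eq_zero.1 (hrow l j) with h | h
      · exact h
      · exact absurd h hj
    obtain ⟨a, -, hγa⟩ := hz 0
    obtain ⟨b, hba, hγb⟩ := hz a
    rw [Fin.sum_univ_three] at hs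
    ext k
    fin_cases a <;> fin_cases b <;> fin_cases k <;> simp_all
  choose m hm using hm
  -- the vectors f
  have hf : ∀ l, ∃ x : Fin 6 → ℂ, (G l *ᵥ x) ⬝ᵥ (G l *ᵥ x) ≠ 0 := by
    intro l
    by_contra hcon
    push Not at hcon
    apply hsq l
    have hq : ∀ x : Fin 6 → ℂ, x ⬝ᵥ ((G l * G l) *ᵥ x) = 0 := by
      intro x
      have h := hcon x
      rw [← Matrix.mulVec_mulVec, Matrix.dotProduct_mulVec, ← Matrix.mulVec_transpose, hsymm]
      exact h
    have hs2 : ∀ i j, (G l * G l) i j = (G l * G l) j i := by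
      intro i j
      have : (G l * G l)ᵀ = G l * G l := by rw [Matrix.transpose_mul, hsymm]
      have h2 := congrFun (congrFun this j) i
      simpa [Matrix.transpose_apply] using h2
    have hii : ∀ i, (G l * G l) i i = 0 := by
      intro i
      have := hq (Pi.single i 1)
      simpa using this
    ext i j
    have h1 := hq (Pi.single i 1 + Pi.single j 1)
    simp only [Matrix.mulVec_add, dotProduct_add, add_dotProduct] at h1
    have h2 : (G l * G l) i i + (G l * G l) i j + ((G l * G l) j i + (G l * G l) j j) = 0 := by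
      have := h1
      simp at this
      linear_combination this
    rw [hii i, hii j, hs2 j i] at h2
    have : (2 : ℂ) * (G l * G l) i j = 0 := by linear_combination h2
    simpa using this
  choose x hx using hf
  -- columns
  have hcol : ∀ l i, (fun j => G l j i) = G l *ᵥ (Pi.single i 1) := by
    intro l i
    ext j
    simp
  have hdot : ∀ l l' : Fin 3, ∀ y z : Fin 6 → ℂ,
      (G l *ᵥ y) ⬝ᵥ (G l' *ᵥ z) = y ⬝ᵥ ((G l * G l') *ᵥ z) := by
    intro l l' y z
    rw [← Matrix.mulVec_mulVec, Matrix.dotProduct_mulVec y, ← Matrix.mulVec_transpose, hsymm]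
  have hpar : ∀ l i l' i', l ≠ m i → l' ≠ m i' →
      ¬ LinearIndependent ℂ ![G l *ᵥ (Pi.single i 1), G l' *ᵥ (Pi.single i' 1)] := by
    intro l i l' i' hl hl'
    have hzero : ∀ (l₁ : Fin 3) (i₁ : Fin 6), l₁ ≠ m i₁ → (G l₁ * G l₁) *ᵥ (Pi.single i₁ 1) = 0 := by
      intro l₁ i₁ h
      ext j
      have hs2 : (G l₁ * G l₁) j i₁ = (G l₁ * G l₁) i₁ j := by
        have : (G l₁ * G l₁)ᵀ = G l₁ * G l₁ := by rw [Matrix.transpose_mul, hsymm]
        have h2 := congrFun (congrFun this j) i₁
        simpa [Matrix.transpose_apply] using h2.symm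
      simp [hs2, hm i₁ l₁ h j]
    have hiso : ∀ (l₁ : Fin 3) (y : Fin 6 → ℂ) (l₂ : Fin 3) (i₂ : Fin 6), l₂ ≠ m i₂ →
        (G l₁ *ᵥ y) ⬝ᵥ (G l₂ *ᵥ (Pi.single i₂ 1)) = 0 := by
      intro l₁ y l₂ i₂ h
      rw [hdot]
      by_cases h12 : l₁ = l₂
      · subst h12
        rw [hzero l₁ i₂ h, dotProduct_zero]
      · rw [hprod l₁ l₂ h12, Matrix.zero_mulVec, dotProduct_zero]
    apply not_li_pair (fun l => G l *ᵥ x l)
    · exact hx
    · intro l₁ l₂ h12
      rw [hdot, hprod l₁ l₂ h12]
      simp
    · intro l₁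
      exact hiso l₁ _ l i hl
    · intro l₁
      exact hiso l₁ _ l' i' hl'
    · exact hiso l _ l i hl
    · exact hiso l _ l' i' hl'
    · exact hiso l' _ l' i' hl'
  -- extract: two parallel vectors with a common coordinate equal to one are equal
  have heq : ∀ (u v : Fin 6 → ℂ) (i : Fin 6), u i = 1 → ¬ LinearIndependent ℂ ![u, v] →
      v = (v i) • u := by
    intro u v i hu h
    rw [LinearIndependent.pair_iff] at h
    push Not at h
    obtain ⟨s, t, hst, hne⟩ := h
    have ht : t ≠ 0 := by
      intro ht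
      rw [ht] at hst
      have := congrFun hst i
      simp [hu] at this
      exact hne this ht
    have hi := congrFun hst i
    simp only [Pi.add_apply, Pi.smul_apply, smul_eq_mul, hu, Pi.zero_apply, mul_one] at hi
    ext j
    have hj := congrFun hst j
    simp only [Pi.add_apply, Pi.smul_apply, smul_eq_mul, Pi.zero_apply] at hj
    have : t * (v j - v i * u j) = 0 := by linear_combination hj - u j * hi
    rcases mul_eq_zero.1 this with h | h
    · exact absurd h ht
    · simp only [Pi.smul_apply, smul_eq_mul]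
      linear_combination h
  have hone : ∀ l i, (G l *ᵥ (Pi.single i 1 : Fin 6 → ℂ)) i = 1 := by
    intro l i
    simp [hdiag]
  have hval : ∀ l i j, (G l *ᵥ (Pi.single i 1 : Fin 6 → ℂ)) j = G l j i := by
    intro l i j
    simp
  have hex : ∀ a b : Fin 3, ∃ l, l ≠ a ∧ l ≠ b := by decide
  obtain ⟨l₀, hl₀, -⟩ := hex (m 0) (m 0)
  have hsq1 : ∀ j, (G l₀ j 0) * (G l₀ j 0) = 1 := by
    intro j
    obtain ⟨l, hl0, hlj⟩ := hex (m 0) (m j)
    have e1 := heq _ _ 0 (hone l₀ 0) (hpar l₀ 0 l 0 hl₀ hl0)
    rw [hone l 0, one_smul] at e1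
    have e1' : G l j 0 = G l₀ j 0 := by
      have := congrFun e1 j
      rw [hval, hval] at this
      exact this
    have e2 := heq _ _ 0 (hone l 0) (hpar l 0 l j hl0 hlj)
    have e2' := congrFun e2 j
    rw [Pi.smul_apply, smul_eq_mul, hval l j j, hval l j 0, hval l 0 j, hdiag] at e2'
    rw [← e1']
    rw [hent l 0 j] at e2'
    exact e2'.symm
  have hz : (G l₀ * G l₀) 0 0 = 0 := hm 0 l₀ hl₀ 0
  rw [Matrix.mul_apply] at hz
  have : ∑ j, G l₀ 0 j * G l₀ j 0 = 6 := by
    have : ∀ j, G l₀ 0 j * G l₀ j 0 = 1 := by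
      intro j
      rw [hent l₀ 0 j]
      exact hsq1 j
    simp [this]
  rw [this] at hz
  norm_num at hz

end Pool.Agent.OD
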