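import Mathlib

set_option autoImplicit false

/-! Common definitions for MP_ea127f_al (sp_6 over the complex numbers has no orthogonal decomposition). -/

namespace Pool.Agent.OD

open Matrix

attribute [local instance 100] LieRing.ofAssociativeRing

/-- Index type of the six dimensional space: three planes, each with two coordinates. -/
abbrev I6 : Type := Fin 3 × Fin 2

/-- The 2 by 2 symplectic matrix. -/
def eps : Matrix (Fin 2) (Fin 2) ℂ := !![0, 1; -1, 0]

/-- The 6 by 6 symplectic matrix, block diagonal with three copies of eps. -/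
def Om : Matrix I6 I6 ℂ := fun p q => if p.1 = q.1 then eps p.2 q.2 else 0

/-- The symplectic adjoint. -/
def sa (X : Matrix I6 I6 ℂ) : Matrix I6 I6 ℂ := -(Om * Xᵀ * Om)

/-- The diagonal element of the symplectic Lie algebra with parameters t. -/
def Dg (t : Fin 3 → ℂ) : Matrix I6 I6 ℂ :=
  Matrix.diagonal fun p => if p.2 = 0 then t p.1 else - t p.1

/-- The symplectic Lie algebra sp_6. -/
def Lsp : LieSubalgebra ℂ (Matrix I6 I6 ℂ) := skewAdjointMatricesLieSubalgebra Om

/-- The block (k,l) of a 6 by 6 matrix. -/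
def blk (X : Matrix I6 I6 ℂ) (k l : Fin 3) : Matrix (Fin 2) (Fin 2) ℂ :=
  fun α β => X (k, α) (l, β)

theorem Om_mul_Om : Om * Om = -1 := by
  ext ⟨k, α⟩ ⟨l, β⟩
  fin_cases k <;> fin_cases l <;> fin_cases α <;> fin_cases β <;>
    simp [Om, eps, Matrix.mul_apply, Fintype.sum_prod_type, Fin.sum_univ_succ, Matrix.one_apply]

theorem Om_transpose : Omᵀ = -Om := by
  ext ⟨k, α⟩ ⟨l, β⟩
  fin_cases k <;> fin_cases l <;> fin_cases α <;> fin_cases β <;>
    simp [Om, eps, Matrix.transpose_apply]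

theorem sa_mul (X Y : Matrix I6 I6 ℂ) : sa (X * Y) = sa Y * sa X := by
  have h : Om * Yᵀ * Om * (Om * Xᵀ * Om) = Om * Yᵀ * (Om * Om) * Xᵀ * Om := by
    simp only [Matrix.mul_assoc]
  simp only [sa, Matrix.transpose_mul, neg_mul_neg, h, Om_mul_Om]
  simp [Matrix.mul_assoc]

theorem sa_sa (X : Matrix I6 I6 ℂ) : sa (sa X) = X := by
  have h : Om * (Om * X * Om) * Om = (Om * Om) * X * (Om * Om) := by
    simp only [Matrix.mul_assoc]
  simp only [sa, Matrix.transpose_neg, Matrix.transpose_mul, Matrix.transpose_transpose, Om_transpose]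
  simp only [mul_neg, neg_mul, neg_neg, ← Matrix.mul_assoc]
  rw [show Om * Om * X * Om * Om = (Om * Om) * X * (Om * Om) by simp only [Matrix.mul_assoc],
    Om_mul_Om]
  simp

theorem sa_one : sa 1 = 1 := by
  simp [sa, Om_mul_Om]

theorem sa_add (X Y : Matrix I6 I6 ℂ) : sa (X + Y) = sa X + sa Y := by
  simp only [sa, Matrix.transpose_add, Matrix.mul_add, Matrix.add_mul, neg_add]

theorem sa_smul (c : ℂ) (X : Matrix I6 I6 ℂ) : sa (c • X) = c • sa X := by
  simp only [sa, Matrix.transpose_smul, Matrix.mul_smul, Matrix.smul_mul, smul_neg]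

theorem sa_neg (X : Matrix I6 I6 ℂ) : sa (-X) = - sa X := by
  simp only [sa, Matrix.transpose_neg, Matrix.mul_neg, Matrix.neg_mul]

theorem sa_sub (X Y : Matrix I6 I6 ℂ) : sa (X - Y) = sa X - sa Y := by
  rw [sub_eq_add_neg, sa_add, sa_neg, ← sub_eq_add_neg]

theorem trace_sa (X : Matrix I6 I6 ℂ) : (sa X).trace = X.trace := by
  rw [sa, Matrix.trace_neg, Matrix.trace_mul_comm, ← Matrix.mul_assoc, Om_mul_Om]
  simp

theorem mem_Lsp (X : Matrix I6 I6 ℂ) : X ∈ Lsp ↔ sa X = -X := by
  unfold Lsp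
  rw [mem_skewAdjointMatricesLieSubalgebra, mem_skewAdjointMatricesSubmodule]
  change Xᵀ * Om = Om * (-X) ↔ _
  unfold sa
  constructor
  · intro h
    rw [Matrix.mul_assoc, h, ← Matrix.mul_assoc, Om_mul_Om]
    simp
  · intro h
    have h2 : Om * (Om * Xᵀ * Om) = Om * X := by
      rw [← neg_neg (Om * Xᵀ * Om), h]; simp
    have h3 : Om * (Om * Xᵀ * Om) = - (Xᵀ * Om) := by
      rw [Matrix.mul_assoc, ← Matrix.mul_assoc, Om_mul_Om]; simp
    rw [h3] at h2
    rw [Matrix.mul_neg, ← h2, neg_neg]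

/-- Blocks of the symplectic adjoint are adjugates of transposed blocks. -/
theorem blk_sa (X : Matrix I6 I6 ℂ) (k l : Fin 3) : blk (sa X) k l = (blk X l k).adjugate := by
  ext α β
  rw [Matrix.adjugate_fin_two]
  fin_cases k <;> fin_cases l <;> fin_cases α <;> fin_cases β <;>
    simp [blk, sa, Om, eps, Matrix.mul_apply, Fintype.sum_prod_type, Fin.sum_univ_succ]

end Pool.Agent.OD
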