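import Mathlib
import Pool.Agent.OD.Defs

set_option autoImplicit false

/-! Frames: consequences of an orthogonal decomposition, tensor identities. -/

namespace Pool.Agent.OD

open Matrix

/-- Standard torus element number a. -/
def h0 (a : Fin 3) : Matrix I6 I6 ℂ := Dg (Pi.single a 1)

/-- Projection onto the plane number a. -/
def E0 (a : Fin 3) : Matrix I6 I6 ℂ := Matrix.diagonal fun p => if p.1 = a then 1 else 0

/-- Torus element number a of the frame G. -/
def hh (G : Matrix I6 I6 ℂ) (a : Fin 3) : Matrix I6 I6 ℂ := G * h0 a * sa G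

/-- Projection onto the plane number a of the frame G. -/
def RR (G : Matrix I6 I6 ℂ) (a : Fin 3) : Matrix I6 I6 ℂ := G * E0 a * sa G

theorem h0_mul_h0 (a b : Fin 3) : h0 a * h0 b = if a = b then E0 a else 0 := by
  unfold h0 Dg E0
  rw [Matrix.diagonal_mul_diagonal]
  split_ifs with h
  · subst h
    congr 1
    ext ⟨k, α⟩
    by_cases hk : k = a
    · subst hk; by_cases hα : α = 0 <;> simp [hα]
    · by_cases hα : α = 0 <;> simp [hα, hk]
  · rw [← Matrix.diagonal_zero]
    congr 1
    ext ⟨k, α⟩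
    by_cases hk : k = a
    · have hb : k ≠ b := by rw [hk]; exact h
      by_cases hα : α = 0 <;> simp [hα, hb]
    · by_cases hα : α = 0 <;> simp [hα, hk]

theorem trace_E0 (a : Fin 3) : (E0 a).trace = 2 := by
  unfold E0
  rw [Matrix.trace_diagonal, Fintype.sum_prod_type]
  simp only [Fin.sum_univ_two]
  fin_cases a <;> simp [Fin.sum_univ_three] <;> norm_num

theorem sum_E0 : ∑ a, E0 a = 1 := by
  ext ⟨k, α⟩ ⟨l, β⟩
  rw [Matrix.sum_apply]
  fin_cases k <;> fin_cases l <;> fin_cases α <;> fin_cases β <;>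
    simp [E0]

theorem E0_mul_E0 (a b : Fin 3) : E0 a * E0 b = if a = b then E0 a else 0 := by
  unfold E0
  rw [Matrix.diagonal_mul_diagonal]
  split_ifs with h
  · subst h
    congr 1
    ext ⟨k, α⟩
    by_cases hk : k = a <;> simp [hk]
  · rw [← Matrix.diagonal_zero]
    congr 1
    ext ⟨k, α⟩
    by_cases hk : k = a
    · have hb : k ≠ b := by rw [hk]; exact h
      simp [hb]
    · simp [hk]

theorem sa_Dg (t : Fin 3 → ℂ) : sa (Dg t) = - Dg t := by
  ext ⟨k, α⟩ ⟨l, β⟩
  fin_cases k <;> fin_cases l <;> fin_cases α <;> fin_cases β <;>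
    simp [sa, Dg, Om, eps, Matrix.mul_apply, Fintype.sum_prod_type, Fin.sum_univ_succ]

theorem sa_h0 (a : Fin 3) : sa (h0 a) = - h0 a := sa_Dg _

theorem sa_E0 (a : Fin 3) : sa (E0 a) = E0 a := by
  ext ⟨k, α⟩ ⟨l, β⟩
  fin_cases a <;> fin_cases k <;> fin_cases l <;> fin_cases α <;> fin_cases β <;>
    simp [sa, E0, Om, eps, Matrix.mul_apply, Fintype.sum_prod_type, Fin.sum_univ_succ]

theorem sa_zero : sa 0 = 0 := by simp [sa]

theorem sa_sum {ι : Type*} (s : Finset ι) (f : ι → Matrix I6 I6 ℂ) :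
    sa (∑ i ∈ s, f i) = ∑ i ∈ s, sa (f i) := by
  classical
  induction s using Finset.induction_on with
  | empty => simp [sa_zero]
  | insert a s ha ih => rw [Finset.sum_insert ha, Finset.sum_insert ha, sa_add, ih]

/-- A self adjoint matrix has scalar diagonal blocks: the local identity. -/
theorem local_std (X : Matrix I6 I6 ℂ) (hX : sa X = X) (a : Fin 3) :
    h0 a * X * h0 a = (1 / 2 * (E0 a * X).trace) • E0 a := by
  have hb := fun k l => blk_sa X k l
  rw [hX] at hb
  have haa := hb a a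
  have e00 := congrFun (congrFun haa 0) 0
  have e01 := congrFun (congrFun haa 0) 1
  have e10 := congrFun (congrFun haa 1) 0
  rw [Matrix.adjugate_fin_two] at e00 e01 e10
  simp only [blk, Matrix.of_apply, Matrix.cons_val', Matrix.cons_val_zero, Matrix.cons_val_one,
    Matrix.cons_val_fin_one] at e00 e01 e10
  have e01' : X (a, 0) (a, 1) = 0 := by
    have : (2 : ℂ) * X (a, 0) (a, 1) = 0 := by linear_combination e01
    simpa using this
  have e10' : X (a, 1) (a, 0) = 0 := by
    have : (2 : ℂ) * X (a, 1) (a, 0) = 0 := by linear_combination e10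
    simpa using this
  have htr : (E0 a * X).trace = 2 * X (a, 0) (a, 0) := by
    have h1 : (E0 a * X).trace = X (a, 0) (a, 0) + X (a, 1) (a, 1) := by
      fin_cases a <;> simp [E0, Matrix.trace, Matrix.diagonal_mul, Fintype.sum_prod_type,
        Fin.sum_univ_succ]
    rw [h1, ← e00]; ring
  rw [htr]
  ext ⟨k, α⟩ ⟨l, β⟩
  unfold h0 Dg E0
  rw [Matrix.mul_diagonal, Matrix.diagonal_mul, Matrix.smul_apply, Matrix.diagonal_apply]
  by_cases hk : k = a
  · subst hk
    by_cases hl : l = k
    · subst hl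
      fin_cases α <;> fin_cases β <;> simp [e01', e10', ← e00]
    · have hl' : k ≠ l := fun h => hl h.symm
      simp [hl, hl']
  · by_cases hl : k = l
    · subst hl; simp [hk]
    · simp [hk, hl]

/-- The data extracted from an orthogonal decomposition: n symplectic frames with pairwise
orthogonal tori spanning the Lie algebra. -/
structure FrameFamily (n : ℕ) (G : Fin n → Matrix I6 I6 ℂ) : Prop where
  unit : ∀ i, G i * sa (G i) = 1
  orth : ∀ i j, i ≠ j → ∀ a b, (hh (G i) a * hh (G j) b).trace = 0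
  span : ∀ Z : Matrix I6 I6 ℂ, sa Z = -Z →
    ∃ t : Fin n → Fin 3 → ℂ, Z = ∑ i, ∑ a, t i a • hh (G i) a

theorem unit_symm {G : Matrix I6 I6 ℂ} (h : G * sa G = 1) : sa G * G = 1 :=
  mul_eq_one_comm.1 h

theorem sa_hh (G : Matrix I6 I6 ℂ) (a : Fin 3) : sa (hh G a) = - hh G a := by
  unfold hh
  rw [sa_mul, sa_mul, sa_sa, sa_h0]
  simp [Matrix.mul_assoc]

theorem sa_RR (G : Matrix I6 I6 ℂ) (a : Fin 3) : sa (RR G a) = RR G a := by
  unfold RR
  rw [sa_mul, sa_mul, sa_sa, sa_E0]
  simp [Matrix.mul_assoc]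

theorem hh_mul_hh {G : Matrix I6 I6 ℂ} (h : G * sa G = 1) (a b : Fin 3) :
    hh G a * hh G b = if a = b then RR G a else 0 := by
  have h' := unit_symm h
  unfold hh RR
  have : G * h0 a * sa G * (G * h0 b * sa G) = G * (h0 a * (sa G * G) * h0 b) * sa G := by
    simp only [Matrix.mul_assoc]
  rw [this, h', Matrix.mul_one, h0_mul_h0]
  split_ifs <;> simp

theorem RR_mul_RR {G : Matrix I6 I6 ℂ} (h : G * sa G = 1) (a b : Fin 3) :
    RR G a * RR G b = if a = b then RR G a else 0 := by
  have h' := unit_symm h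
  unfold RR
  have : G * E0 a * sa G * (G * E0 b * sa G) = G * (E0 a * (sa G * G) * E0 b) * sa G := by
    simp only [Matrix.mul_assoc]
  rw [this, h', Matrix.mul_one, E0_mul_E0]
  split_ifs <;> simp

theorem trace_RR {G : Matrix I6 I6 ℂ} (h : G * sa G = 1) (a : Fin 3) : (RR G a).trace = 2 := by
  have h' := unit_symm h
  unfold RR
  rw [Matrix.trace_mul_comm, ← Matrix.mul_assoc, h', Matrix.one_mul, trace_E0]

theorem sum_RR {G : Matrix I6 I6 ℂ} (h : G * sa G = 1) : ∑ a, RR G a = 1 := by
  unfold RR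
  rw [← Finset.sum_mul, ← Finset.mul_sum, sum_E0, Matrix.mul_one, h]

theorem local_frame {G : Matrix I6 I6 ℂ} (h : G * sa G = 1) (X : Matrix I6 I6 ℂ) (hX : sa X = X)
    (a : Fin 3) : hh G a * X * hh G a = (1 / 2 * (RR G a * X).trace) • RR G a := by
  have h1 : sa (sa G * X * G) = sa G * X * G := by
    rw [sa_mul, sa_mul, sa_sa, hX, Matrix.mul_assoc]
  have h2 := local_std _ h1 a
  have h3 : (E0 a * (sa G * X * G)).trace = (RR G a * X).trace := by
    unfold RR
    rw [show E0 a * (sa G * X * G) = (E0 a * sa G * X) * G by simp only [Matrix.mul_assoc],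
      Matrix.trace_mul_comm, show G * (E0 a * sa G * X) = G * E0 a * sa G * X by
        simp only [Matrix.mul_assoc]]
  rw [h3] at h2
  unfold hh
  have h4 : G * h0 a * sa G * X * (G * h0 a * sa G) = G * (h0 a * (sa G * X * G) * h0 a) * sa G := by
    simp only [Matrix.mul_assoc]
  rw [h4, h2]
  unfold RR
  simp [Matrix.mul_assoc]

theorem trace_sa_mul (Z h : Matrix I6 I6 ℂ) (hh' : sa h = -h) :
    (sa Z * h).trace = - (Z * h).trace := by
  rw [← trace_sa (sa Z * h), sa_mul, sa_sa, hh', Matrix.neg_mul, Matrix.trace_neg,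
    Matrix.trace_mul_comm]

theorem T1' {n : ℕ} {G : Fin n → Matrix I6 I6 ℂ} (F : FrameFamily n G) (Z : Matrix I6 I6 ℂ) :
    ∑ i, ∑ a, (Z * hh (G i) a).trace • hh (G i) a = Z - sa Z := by
  obtain ⟨t, ht⟩ := F.span (Z - sa Z) (by rw [sa_sub, sa_sa]; abel)
  have key : ∀ j b, (Z * hh (G j) b).trace = t j b := by
    intro j b
    have h1 : ((Z - sa Z) * hh (G j) b).trace = 2 * (Z * hh (G j) b).trace := by
      rw [Matrix.sub_mul, Matrix.trace_sub, trace_sa_mul _ _ (sa_hh _ _)]; ring
    have h2 : ((Z - sa Z) * hh (G j) b).trace = 2 * t j b := by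
      rw [ht, Finset.sum_mul, Matrix.trace_sum, Finset.sum_eq_single j]
      · rw [Finset.sum_mul, Matrix.trace_sum, Finset.sum_eq_single b]
        · rw [Matrix.smul_mul, Matrix.trace_smul, hh_mul_hh (F.unit j), if_pos rfl,
            trace_RR (F.unit j), smul_eq_mul]; ring
        · intro a _ hab
          rw [Matrix.smul_mul, Matrix.trace_smul, hh_mul_hh (F.unit j), if_neg hab]
          simp
        · intro h; exact absurd (Finset.mem_univ b) h
      · intro i _ hij
        rw [Finset.sum_mul, Matrix.trace_sum]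
        apply Finset.sum_eq_zero
        intro a _
        rw [Matrix.smul_mul, Matrix.trace_smul, F.orth i j hij]
        simp
      · intro h; exact absurd (Finset.mem_univ j) h
    have : (2 : ℂ) * ((Z * hh (G j) b).trace - t j b) = 0 := by rw [mul_sub, ← h1, h2]; ring
    have h3 := (mul_eq_zero.1 this).resolve_left (by norm_num)
    linear_combination h3
  simp only [key]
  exact ht.symm

theorem single_trace (s r : I6) (A : Matrix I6 I6 ℂ) :
    (Matrix.single s r (1 : ℂ) * A).trace = A r s := by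
  rw [Matrix.trace]
  rw [Finset.sum_eq_single s]
  · simp [Matrix.single_mul_apply_same]
  · intro x _ hx
    simp [Matrix.diag, Matrix.single_mul_apply_of_ne, hx]
  · intro h; exact absurd (Finset.mem_univ s) h

theorem sa_single (s r p q : I6) :
    sa (Matrix.single s r (1 : ℂ)) p q = - (Om p r * Om s q) := by
  unfold sa
  rw [Matrix.transpose_single, Matrix.neg_apply, Matrix.mul_assoc, Matrix.mul_apply,
    Finset.sum_eq_single r]
  · simp [Matrix.single_mul_apply_same]
  · intro x _ hx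
    simp [Matrix.single_mul_apply_of_ne, hx]
  · intro h; exact absurd (Finset.mem_univ r) h

/-- Entry form of the tensor identity. -/
theorem T1_entry {n : ℕ} {G : Fin n → Matrix I6 I6 ℂ} (F : FrameFamily n G) (r s p q : I6) :
    ∑ i, ∑ a, hh (G i) a r s * hh (G i) a p q =
      (if s = p ∧ r = q then 1 else 0) + Om p r * Om s q := by
  have h := congrFun (congrFun (T1' F (Matrix.single s r 1)) p) q
  simp only [Matrix.sum_apply, Matrix.smul_apply, smul_eq_mul, Matrix.sub_apply, single_trace] at h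
  rw [h, sa_single, Matrix.single_apply]
  ring

theorem sum3_comm {n : ℕ} {κ : Type*} [Fintype κ] (f : Fin n → Fin 3 → κ → ℂ) :
    ∑ i, ∑ a, ∑ s, f i a s = ∑ s, ∑ i, ∑ a, f i a s := by
  calc ∑ i, ∑ a, ∑ s, f i a s = ∑ i, ∑ s, ∑ a, f i a s :=
        Finset.sum_congr rfl fun i _ => Finset.sum_comm
    _ = ∑ s, ∑ i, ∑ a, f i a s := Finset.sum_comm

theorem Om_swap (p q : I6) : Om p q = - Om q p := by
  have := congrFun (congrFun Om_transpose q) p
  simpa [Matrix.transpose_apply] using this

/-- The Casimir identity. -/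
theorem T1_casimir {n : ℕ} {G : Fin n → Matrix I6 I6 ℂ} (F : FrameFamily n G)
    (X : Matrix I6 I6 ℂ) :
    ∑ i, ∑ a, hh (G i) a * X * hh (G i) a = X.trace • (1 : Matrix I6 I6 ℂ) + sa X := by
  ext p q
  simp only [Matrix.sum_apply]
  have h1 : ∀ i a, (hh (G i) a * X * hh (G i) a) p q =
      ∑ s, ∑ r, X r s * (hh (G i) a p r * hh (G i) a s q) := by
    intro i a
    rw [Matrix.mul_apply]
    apply Finset.sum_congr rfl
    intro s _
    rw [Matrix.mul_apply, Finset.sum_mul]
    apply Finset.sum_congr rfl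
    intro r _
    ring
  simp only [h1]
  rw [sum3_comm]
  have h2 : ∀ s, ∑ i, ∑ a, ∑ r, X r s * (hh (G i) a p r * hh (G i) a s q) =
      ∑ r, X r s * ((if r = s ∧ p = q then 1 else 0) + Om s p * Om r q) := by
    intro s
    rw [sum3_comm]
    apply Finset.sum_congr rfl
    intro r _
    rw [← T1_entry F p r s q, Finset.mul_sum]
    apply Finset.sum_congr rfl
    intro i _
    rw [Finset.mul_sum]
  simp only [h2]
  have h3 : ∀ s r, X r s * ((if r = s ∧ p = q then 1 else 0) + Om s p * Om r q) =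
      (if r = s then X r s * (if p = q then 1 else 0) else 0) - Om p s * X r s * Om r q := by
    intro s r
    rw [Om_swap s p]
    by_cases h1 : r = s <;> by_cases h2 : p = q <;> simp [h1, h2] <;> ring
  simp only [h3, Finset.sum_sub_distrib]
  rw [Matrix.add_apply, Matrix.smul_apply, Matrix.one_apply, smul_eq_mul, sub_eq_add_neg]
  congr 1
  · simp only [Finset.sum_ite_eq', Finset.mem_univ, if_true]
    rw [← Finset.sum_mul]
    rfl
  · unfold sa
    rw [Matrix.neg_apply, Matrix.mul_apply]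
    congr 1
    rw [Finset.sum_comm]
    apply Finset.sum_congr rfl
    intro r _
    rw [Matrix.mul_apply, Finset.sum_mul]
    apply Finset.sum_congr rfl
    intro s _
    rw [Matrix.transpose_apply]

/-- The number of frames is seven. -/
theorem seven {n : ℕ} {G : Fin n → Matrix I6 I6 ℂ} (F : FrameFamily n G) : n = 7 := by
  have h := T1_casimir F 1
  have h1 : ∀ i : Fin n, ∑ a, hh (G i) a * 1 * hh (G i) a = 1 := by
    intro i
    have : ∀ a, hh (G i) a * 1 * hh (G i) a = RR (G i) a := by
      intro a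
      rw [Matrix.mul_one, hh_mul_hh (F.unit i), if_pos rfl]
    simp only [this]
    exact sum_RR (F.unit i)
  simp only [h1, sa_one] at h
  have h2 := congrFun (congrFun h (0, 0)) (0, 0)
  simp at h2
  have h3 : (n : ℂ) = 7 := by
    rw [h2]
    norm_num
  exact_mod_cast h3

/-- The second tensor identity. -/
theorem T2 {n : ℕ} {G : Fin n → Matrix I6 I6 ℂ} (F : FrameFamily n G) (X : Matrix I6 I6 ℂ) :
    ∑ i, ∑ a, (RR (G i) a * X).trace • RR (G i) a =
      X + sa X + (2 * X.trace) • (1 : Matrix I6 I6 ℂ) := by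
  have hs : sa (X + sa X) = X + sa X := by rw [sa_add, sa_sa, add_comm]
  have h := T1_casimir F (X + sa X)
  have h1 : ∀ i a, hh (G i) a * (X + sa X) * hh (G i) a = (RR (G i) a * X).trace • RR (G i) a := by
    intro i a
    rw [local_frame (F.unit i) _ hs]
    congr 1
    rw [Matrix.mul_add, Matrix.trace_add]
    have : (RR (G i) a * sa X).trace = (RR (G i) a * X).trace := by
      rw [← trace_sa (RR (G i) a * X), sa_mul, sa_RR, Matrix.trace_mul_comm]
    rw [this]
    ring
  simp only [h1] at h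
  rw [h, hs, Matrix.trace_add, trace_sa]
  rw [add_comm, two_mul]

/-- Gram matrix of the plane projections. -/
noncomputable def Cm {n : ℕ} (G : Fin n → Matrix I6 I6 ℂ) : Matrix (Fin n × Fin 3) (Fin n × Fin 3) ℂ :=
  fun x y => (RR (G x.1) x.2 * RR (G y.1) y.2).trace

theorem Cm_row {n : ℕ} {G : Fin n → Matrix I6 I6 ℂ} (F : FrameFamily n G) (x : Fin n × Fin 3)
    (j : Fin n) : ∑ b, Cm G x (j, b) = 2 := by
  unfold Cm
  simp only
  rw [← Matrix.trace_sum, ← Finset.mul_sum, sum_RR (F.unit j), Matrix.mul_one, trace_RR (F.unit x.1)]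

theorem Cm_diag {n : ℕ} {G : Fin n → Matrix I6 I6 ℂ} (F : FrameFamily n G) (i : Fin n) (a b : Fin 3) :
    Cm G (i, a) (i, b) = if a = b then 2 else 0 := by
  unfold Cm
  simp only
  rw [RR_mul_RR (F.unit i)]
  split_ifs
  · exact trace_RR (F.unit i) a
  · simp

theorem Cm_symm {n : ℕ} (G : Fin n → Matrix I6 I6 ℂ) (x y : Fin n × Fin 3) : Cm G x y = Cm G y x := by
  unfold Cm
  rw [Matrix.trace_mul_comm]

theorem Cm_sq {n : ℕ} {G : Fin n → Matrix I6 I6 ℂ} (F : FrameFamily n G) (x y : Fin n × Fin 3) :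
    (Cm G * Cm G) x y = 2 * Cm G x y + 8 := by
  have h := T2 F (RR (G y.1) y.2)
  have h1 := congrArg (fun M => (RR (G x.1) x.2 * M).trace) h
  simp only [Finset.mul_sum, Matrix.trace_sum, Matrix.mul_smul, Matrix.trace_smul, sa_RR,
    Matrix.mul_add, Matrix.trace_add, Matrix.mul_one, trace_RR (F.unit _), smul_eq_mul] at h1
  rw [Matrix.mul_apply, Fintype.sum_prod_type]
  have h2 : ∀ i a, Cm G x (i, a) * Cm G (i, a) y =
      (RR (G i) a * RR (G y.1) y.2).trace * (RR (G x.1) x.2 * RR (G i) a).trace := by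
    intro i a
    unfold Cm
    ring
  simp only [h2]
  rw [h1]
  unfold Cm
  ring

end Pool.Agent.OD
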