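import Mathlib
import Pool.Agent.OD.Frames

set_option autoImplicit false

/-! Unbiasedness of the frames. -/

namespace Pool.Agent.OD

open Matrix

/-- The error matrix. -/
noncomputable def Em (G : Fin 7 → Matrix I6 I6 ℂ) : Matrix (Fin 7 × Fin 3) (Fin 7 × Fin 3) ℂ :=
  fun x y => (if x = y then 1 else 0) - 1 / 3 * (if x.1 = y.1 then 1 else 0) -
    1 / 2 * Cm G x y + 1 / 3

theorem Em_mul {G : Fin 7 → Matrix I6 I6 ℂ} (F : FrameFamily 7 G) : Em G * Em G = Em G := by
  ext x y
  have hsq := Cm_sq F x y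
  rw [Matrix.mul_apply] at hsq
  have hrow : ∑ z, Cm G x z = 14 := by
    rw [Fintype.sum_prod_type]
    simp only [Cm_row F x]
    norm_num
  have hcol : ∑ z, Cm G z y = 14 := by
    have : ∀ z, Cm G z y = Cm G y z := fun z => Cm_symm G z y
    simp only [this]
    rw [Fintype.sum_prod_type]
    simp only [Cm_row F y]
    norm_num
  have hB1 : ∑ z : Fin 7 × Fin 3, (if x.1 = z.1 then (1 : ℂ) else 0) * Cm G z y = 2 := by
    rw [Fintype.sum_prod_type, Finset.sum_eq_single x.1]
    · have : ∀ z : Fin 3, (if x.1 = ((x.1, z) : Fin 7 × Fin 3).1 then (1 : ℂ) else 0) *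
          Cm G (x.1, z) y = Cm G y (x.1, z) := by
        intro z
        simp [Cm_symm G (x.1, z) y]
      rw [Finset.sum_congr rfl fun z _ => this z]
      exact Cm_row F y x.1
    · intro i _ hi
      apply Finset.sum_eq_zero
      intro a _
      have : x.1 ≠ i := fun h => hi h.symm
      simp [this]
    · intro h; exact absurd (Finset.mem_univ _) h
  have hB2 : ∑ z : Fin 7 × Fin 3, Cm G x z * (if z.1 = y.1 then (1 : ℂ) else 0) = 2 := by
    rw [Fintype.sum_prod_type, Finset.sum_eq_single y.1]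
    · have : ∀ z : Fin 3, Cm G x (y.1, z) * (if ((y.1, z) : Fin 7 × Fin 3).1 = y.1 then (1 : ℂ) else 0)
          = Cm G x (y.1, z) := by
        intro z
        simp
      rw [Finset.sum_congr rfl fun z _ => this z]
      exact Cm_row F x y.1
    · intro i _ hi
      apply Finset.sum_eq_zero
      intro a _
      simp [hi]
    · intro h; exact absurd (Finset.mem_univ _) h
  have hBB : ∑ z : Fin 7 × Fin 3, (if x.1 = z.1 then (1 : ℂ) else 0) * (if z.1 = y.1 then (1 : ℂ) else 0)
      = 3 * (if x.1 = y.1 then (1 : ℂ) else 0) := by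
    rw [Fintype.sum_prod_type, Finset.sum_eq_single x.1]
    · simp
    · intro i _ hi
      apply Finset.sum_eq_zero
      intro a _
      have : x.1 ≠ i := fun h => hi h.symm
      simp [this]
    · intro h; exact absurd (Finset.mem_univ _) h
  have hBJ1 : ∑ z : Fin 7 × Fin 3, (if x.1 = z.1 then (1 : ℂ) else 0) = 3 := by
    rw [Fintype.sum_prod_type, Finset.sum_eq_single x.1]
    · simp
    · intro i _ hi
      apply Finset.sum_eq_zero
      intro a _
      have : x.1 ≠ i := fun h => hi h.symm
      simp [this]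
    · intro h; exact absurd (Finset.mem_univ _) h
  have hBJ2 : ∑ z : Fin 7 × Fin 3, (if z.1 = y.1 then (1 : ℂ) else 0) = 3 := by
    rw [Fintype.sum_prod_type, Finset.sum_eq_single y.1]
    · simp
    · intro i _ hi
      apply Finset.sum_eq_zero
      intro a _
      simp [hi]
    · intro h; exact absurd (Finset.mem_univ _) h
  have h1 : ∑ z : Fin 7 × Fin 3, (1 : ℂ) = 21 := by simp
  rw [Matrix.mul_apply]
  have expand : ∀ z : Fin 7 × Fin 3, Em G x z * Em G z y =
      (if x = z then Em G z y else 0) + (if z = y then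
        (- 1 / 3 * (if x.1 = z.1 then (1 : ℂ) else 0) - 1 / 2 * Cm G x z + 1 / 3) else 0) +
      (1 / 9) * ((if x.1 = z.1 then (1 : ℂ) else 0) * (if z.1 = y.1 then (1 : ℂ) else 0)) +
      (1 / 6) * ((if x.1 = z.1 then (1 : ℂ) else 0) * Cm G z y) +
      (1 / 6) * (Cm G x z * (if z.1 = y.1 then (1 : ℂ) else 0)) +
      (1 / 4) * (Cm G x z * Cm G z y) -
      (1 / 9) * (if x.1 = z.1 then (1 : ℂ) else 0) - (1 / 9) * (if z.1 = y.1 then (1 : ℂ) else 0) -
      (1 / 6) * Cm G x z - (1 / 6) * Cm G z y + (1 / 9) * 1 := by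
    intro z
    unfold Em
    by_cases hxz : x = z
    · by_cases hzy : z = y
      · subst hxz; subst hzy; simp only [if_true]; ring
      · subst hxz; simp only [hzy, if_true, if_false]; ring
    · by_cases hzy : z = y
      · subst hzy; simp only [hxz, if_true, if_false]; ring
      · simp only [hxz, hzy, if_false]; ring
  simp only [expand, Finset.sum_add_distrib, Finset.sum_sub_distrib, ← Finset.mul_sum, hsq, hrow,
    hcol, hB1, hB2, hBB, hBJ1, hBJ2, h1, Finset.sum_ite_eq, Finset.sum_ite_eq', Finset.mem_univ,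
    if_true]
  unfold Em
  by_cases hxy : x = y
  · subst hxy; simp only [if_true]; ring
  · simp only [hxy, if_false]; ring

theorem Em_zero {G : Fin 7 → Matrix I6 I6 ℂ} (F : FrameFamily 7 G) : Em G = 0 := by
  have hid : IsIdempotentElem (Matrix.toLin' (Em G)) := by
    unfold IsIdempotentElem
    rw [Module.End.mul_eq_comp, ← Matrix.toLin'_mul, Em_mul F]
  have htr : LinearMap.trace ℂ _ (Matrix.toLin' (Em G)) = 0 := by
    rw [Matrix.trace_toLin'_eq]
    unfold Matrix.trace Matrix.diag Em
    rw [Fintype.sum_prod_type]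
    have : ∀ (i : Fin 7) (a : Fin 3), Cm G (i, a) (i, a) = 2 := by
      intro i a
      rw [Cm_diag F, if_pos rfl]
    simp only [this]
    norm_num
  have h0 := LinearMap.IsIdempotentElem.eq_zero_of_trace_eq_zero hid htr
  exact (LinearEquiv.map_eq_zero_iff _).1 h0

/-- Unbiasedness. -/
theorem unbiased {G : Fin 7 → Matrix I6 I6 ℂ} (F : FrameFamily 7 G) (i j : Fin 7) (hij : i ≠ j)
    (a b : Fin 3) : (RR (G i) a * RR (G j) b).trace = 2 / 3 := by
  have h := congrFun (congrFun (Em_zero F) (i, a)) (j, b)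
  unfold Em Cm at h
  have h1 : ((i, a) : Fin 7 × Fin 3) ≠ (j, b) := fun h => hij (Prod.ext_iff.1 h).1
  simp only [h1, hij, if_false, Matrix.zero_apply] at h
  linear_combination (-2 : ℂ) * h

end Pool.Agent.OD
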