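import Mathlib

set_option autoImplicit false

/-! Two by two matrices: normal form of 3 by 3 quaternionic Hadamard matrices. -/

namespace Pool.Agent.OD

open Matrix

/-- 2 by 2 matrices. -/
abbrev M2 : Type := Matrix (Fin 2) (Fin 2) ℂ

theorem M2_ext {X Y : M2} (h00 : X 0 0 = Y 0 0) (h01 : X 0 1 = Y 0 1) (h10 : X 1 0 = Y 1 0)
    (h11 : X 1 1 = Y 1 1) : X = Y := by
  ext i j
  fin_cases i <;> fin_cases j
  · exact h00
  · exact h01
  · exact h10
  · exact h11

theorem adj_adj (X : M2) : X.adjugate.adjugate = X := by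
  rw [Matrix.adjugate_fin_two, Matrix.adjugate_fin_two]
  apply M2_ext <;> simp

theorem adj_mul (X Y : M2) : (X * Y).adjugate = Y.adjugate * X.adjugate :=
  Matrix.adjugate_mul_distrib X Y

theorem adj_mul_self (X : M2) (h : X.det = 1) : X.adjugate * X = 1 := by
  rw [Matrix.adjugate_mul, h, one_smul]

theorem mul_adj_self (X : M2) (h : X.det = 1) : X * X.adjugate = 1 := by
  rw [Matrix.mul_adjugate, h, one_smul]

theorem det_adj (X : M2) : X.adjugate.det = X.det := by
  rw [Matrix.adjugate_fin_two, Matrix.det_fin_two, Matrix.det_fin_two]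
  simp
  ring

/-- order three elements -/
theorem order3 (X Y : M2) (hX : X.det = 1) (hY : Y.det = 1) (h : 1 + X + Y = 0) :
    X * X = Y ∧ X.adjugate = Y ∧ X 0 0 + X 1 1 = -1 := by
  have hYX : Y = -1 - X := by
    have : Y = 0 - 1 - X := by rw [← h]; abel
    rw [this]; simp
  subst hYX
  rw [Matrix.det_fin_two] at hX hY
  simp at hY
  have htr : X 0 0 + X 1 1 = -1 := by linear_combination hY - hX
  refine ⟨?_, ?_, htr⟩
  · apply M2_ext
    · rw [Matrix.mul_apply, Fin.sum_univ_two]; simp
      linear_combination X 0 0 * htr - hX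
    · rw [Matrix.mul_apply, Fin.sum_univ_two]; simp
      linear_combination X 0 1 * htr
    · rw [Matrix.mul_apply, Fin.sum_univ_two]; simp
      linear_combination X 1 0 * htr
    · rw [Matrix.mul_apply, Fin.sum_univ_two]; simp
      linear_combination X 1 1 * htr - hX
  · rw [Matrix.adjugate_fin_two]
    apply M2_ext
    · simp; linear_combination htr
    · simp
    · simp
    · simp; linear_combination htr

/-- diagonalisation of an order three element -/
theorem diag3 (w : ℂ) (hw : w ^ 2 + w + 1 = 0) (X : M2) (hX : X.det = 1)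
    (htr : X 0 0 + X 1 1 = -1) :
    ∃ P : M2, P.det = 1 ∧ X * P = P * !![w, 0; 0, w ^ 2] := by
  rw [Matrix.det_fin_two] at hX
  have hw3 : w ^ 3 = 1 := by linear_combination (w - 1) * hw
  have hne : w ^ 2 - w ≠ 0 := by
    intro h
    have h3 : (3 : ℂ) = 0 := by
      have h1 : (w ^ 2 - w) ^ 2 = 0 := by rw [h]; ring
      have h2 : (w ^ 2 - w) ^ 2 = -3 := by
        linear_combination (w ^ 2 - 3 * w + 3) * hw
      rw [h2] at h1
      linear_combination (-1 : ℂ) * h1
    norm_num at h3
  by_cases hb : X 0 1 = 0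
  · by_cases hc : X 1 0 = 0
    · -- diagonal
      have had : X 0 0 * X 1 1 = 1 := by rw [hb] at hX; linear_combination hX
      have hq : (X 0 0 - w) * (X 0 0 - w ^ 2) = 0 := by
        linear_combination (X 0 0) * htr - had - (X 0 0) * hw + (w - 1) * hw
      rcases mul_eq_zero.1 hq with h | h
      · have h00 : X 0 0 = w := by linear_combination h
        have h11 : X 1 1 = w ^ 2 := by linear_combination htr - h00 - hw
        refine ⟨1, Matrix.det_one, ?_⟩
        rw [Matrix.mul_one, Matrix.one_mul]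
        apply M2_ext <;> simp [h00, h11, hb, hc]
      · have h00 : X 0 0 = w ^ 2 := by linear_combination h
        have h11 : X 1 1 = w := by linear_combination htr - h00 - hw
        refine ⟨!![0, 1; -1, 0], by simp [Matrix.det_fin_two], ?_⟩
        apply M2_ext <;> simp [Matrix.mul_apply, Fin.sum_univ_two, h00, h11, hb, hc]
    · have hD : X 1 0 * (w - w ^ 2) ≠ 0 := by
        apply mul_ne_zero hc
        intro h
        apply hne
        linear_combination (-1 : ℂ) * h
      refine ⟨!![(w - X 1 1), (w ^ 2 - X 1 1) * (X 1 0 * (w - w ^ 2))⁻¹;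
        X 1 0, X 1 0 * (X 1 0 * (w - w ^ 2))⁻¹], ?_, ?_⟩
      · rw [Matrix.det_fin_two]
        simp only [Matrix.of_apply, Matrix.cons_val', Matrix.cons_val_zero, Matrix.cons_val_one,
          Matrix.cons_val_fin_one]
        have : (w - X 1 1) * (X 1 0 * (X 1 0 * (w - w ^ 2))⁻¹) -
            (w ^ 2 - X 1 1) * (X 1 0 * (w - w ^ 2))⁻¹ * X 1 0 =
            (X 1 0 * (w - w ^ 2)) * (X 1 0 * (w - w ^ 2))⁻¹ := by ring
        rw [this, mul_inv_cancel₀ hD]
      · generalize (X 1 0 * (w - w ^ 2))⁻¹ = u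
        apply M2_ext <;>
          simp only [Matrix.mul_apply, Fin.sum_univ_two, Matrix.of_apply, Matrix.cons_val',
            Matrix.cons_val_zero, Matrix.cons_val_one, Matrix.cons_val_fin_one]
        · linear_combination w * htr - hX - hw
        · linear_combination u * (w ^ 2 * htr - hX + (w - w ^ 2 - 1) * hw)
        · linear_combination (X 1 0) * htr * 0
        · linear_combination (X 1 0) * htr * 0
  · have hD : X 0 1 * (w ^ 2 - w) ≠ 0 := mul_ne_zero hb hne
    refine ⟨!![X 0 1, X 0 1 * (X 0 1 * (w ^ 2 - w))⁻¹;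
        (w - X 0 0), (w ^ 2 - X 0 0) * (X 0 1 * (w ^ 2 - w))⁻¹], ?_, ?_⟩
    · rw [Matrix.det_fin_two]
      simp only [Matrix.of_apply, Matrix.cons_val', Matrix.cons_val_zero, Matrix.cons_val_one,
        Matrix.cons_val_fin_one]
      have : X 0 1 * ((w ^ 2 - X 0 0) * (X 0 1 * (w ^ 2 - w))⁻¹) -
          X 0 1 * (X 0 1 * (w ^ 2 - w))⁻¹ * (w - X 0 0) =
          (X 0 1 * (w ^ 2 - w)) * (X 0 1 * (w ^ 2 - w))⁻¹ := by ring
      rw [this, mul_inv_cancel₀ hD]
    · generalize (X 0 1 * (w ^ 2 - w))⁻¹ = u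
      apply M2_ext <;>
        simp only [Matrix.mul_apply, Fin.sum_univ_two, Matrix.of_apply, Matrix.cons_val',
          Matrix.cons_val_zero, Matrix.cons_val_one, Matrix.cons_val_fin_one]
      · ring
      · ring
      · linear_combination w * htr - hX - hw
      · linear_combination u * (w ^ 2 * htr - hX + (w - w ^ 2 - 1) * hw)

end Pool.Agent.OD
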