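import Mathlib
import Pool.Agent.OD.TwoByTwo

set_option autoImplicit false

/-! Normal form of 3 by 3 quaternionic Hadamard matrices. -/

namespace Pool.Agent.OD

open Matrix

/-- Powers of the order three diagonal matrix. -/
def zt (w : ℂ) (k a : Fin 3) : M2 := !![w ^ (k.val * a.val), 0; 0, w ^ (2 * (k.val * a.val))]

theorem det_zt (w : ℂ) (hw3 : w ^ 3 = 1) (k a : Fin 3) : (zt w k a).det = 1 := by
  unfold zt
  rw [Matrix.det_fin_two]
  simp only [Matrix.of_apply, Matrix.cons_val', Matrix.cons_val_zero, Matrix.cons_val_one,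
    Matrix.cons_val_fin_one, mul_zero, sub_zero]
  rw [← pow_add, show k.val * a.val + 2 * (k.val * a.val) = 3 * (k.val * a.val) by ring, pow_mul,
    hw3, one_pow]

theorem normal_form (w : ℂ) (hw : w ^ 2 + w + 1 = 0) (M : Fin 3 → Fin 3 → M2)
    (hrow : ∀ k l, ∑ a, M k a * (M l a).adjugate = if k = l then 1 else 0)
    (hdet : ∀ k a, (M k a).det = 1 / 3) :
    ∃ p : Fin 3 → M2, (∀ k, (p k).det = 1) ∧
      ∀ a k l, M k a * (M l a).adjugate =
        (1 / 3 : ℂ) • (p k * zt w k a * (p l * zt w l a).adjugate) := by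
  have hw3 : w ^ 3 = 1 := by linear_combination (w - 1) * hw
  -- the elements A
  obtain ⟨A, hA⟩ : ∃ A : Fin 3 → Fin 3 → M2, ∀ k a, A k a = (3 : ℂ) • (M k a * (M 0 a).adjugate) :=
    ⟨_, fun _ _ => rfl⟩
  have hM0 : ∀ a, (M 0 a).adjugate * M 0 a = (1 / 3 : ℂ) • (1 : M2) := by
    intro a
    rw [Matrix.adjugate_mul, hdet]
  have hA0 : ∀ a, A 0 a = 1 := by
    intro a
    rw [hA, Matrix.mul_adjugate, hdet, smul_smul]
    norm_num
  have hAdet : ∀ k a, (A k a).det = 1 := by
    intro k a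
    rw [hA, Matrix.det_smul, Matrix.det_mul, det_adj, hdet, hdet]
    norm_num
  have hAA : ∀ a k l, M k a * (M l a).adjugate = (1 / 3 : ℂ) • (A k a * (A l a).adjugate) := by
    intro a k l
    have h1 : (A l a).adjugate = (3 : ℂ) • (M 0 a * (M l a).adjugate) := by
      rw [hA, Matrix.adjugate_smul, adj_mul, adj_adj]
      simp
    rw [h1, hA]
    rw [Matrix.smul_mul, Matrix.mul_smul]
    have h2 : M k a * (M 0 a).adjugate * (M 0 a * (M l a).adjugate) =
        M k a * ((M 0 a).adjugate * M 0 a) * (M l a).adjugate := by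
      simp only [Matrix.mul_assoc]
    rw [h2, hM0]
    simp only [Matrix.mul_smul, Matrix.mul_one, Matrix.smul_mul, smul_smul]
    norm_num
  -- row relations
  have hs1 : A 1 0 + A 1 1 + A 1 2 = 0 := by
    have := hrow 1 0
    rw [Fin.sum_univ_three] at this
    rw [hA, hA, hA, ← smul_add, ← smul_add, this]
    simp
  have hs2 : A 2 0 + A 2 1 + A 2 2 = 0 := by
    have := hrow 2 0
    rw [Fin.sum_univ_three] at this
    rw [hA, hA, hA, ← smul_add, ← smul_add, this]
    simp
  have hs12 : A 1 0 * (A 2 0).adjugate + A 1 1 * (A 2 1).adjugate + A 1 2 * (A 2 2).adjugate = 0 := by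
    have := hrow 1 2
    rw [Fin.sum_univ_three, hAA, hAA, hAA, ← smul_add, ← smul_add] at this
    have h0 : (if (1 : Fin 3) = 2 then (1 : M2) else 0) = 0 := by simp
    rw [h0] at this
    have h3 := smul_eq_zero.1 this
    rcases h3 with h | h
    · norm_num at h
    · exact h
  -- x and y
  set x : M2 := (A 1 0).adjugate * A 1 1 with hx
  set x2 : M2 := (A 1 0).adjugate * A 1 2 with hx2
  set y : M2 := (A 2 0).adjugate * A 2 1 with hy
  set y2 : M2 := (A 2 0).adjugate * A 2 2 with hy2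
  have hxdet : x.det = 1 := by rw [hx, Matrix.det_mul, det_adj, hAdet, hAdet, one_mul]
  have hx2det : x2.det = 1 := by rw [hx2, Matrix.det_mul, det_adj, hAdet, hAdet, one_mul]
  have hydet : y.det = 1 := by rw [hy, Matrix.det_mul, det_adj, hAdet, hAdet, one_mul]
  have hy2det : y2.det = 1 := by rw [hy2, Matrix.det_mul, det_adj, hAdet, hAdet, one_mul]
  have hxs : 1 + x + x2 = 0 := by
    have h1 : (A 1 0).adjugate * (A 1 0 + A 1 1 + A 1 2) = 1 + x + x2 := by
      rw [Matrix.mul_add, Matrix.mul_add, adj_mul_self _ (hAdet 1 0)]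
    rw [← h1, hs1, Matrix.mul_zero]
  have hys : 1 + y + y2 = 0 := by
    have h1 : (A 2 0).adjugate * (A 2 0 + A 2 1 + A 2 2) = 1 + y + y2 := by
      rw [Matrix.mul_add, Matrix.mul_add, adj_mul_self _ (hAdet 2 0)]
    rw [← h1, hs2, Matrix.mul_zero]
  obtain ⟨hxx, hxadj, hxtr⟩ := order3 x x2 hxdet hx2det hxs
  obtain ⟨hyy, hyadj, hytr⟩ := order3 y y2 hydet hy2det hys
  have hA11 : A 1 1 = A 1 0 * x := by
    rw [hx, ← Matrix.mul_assoc, mul_adj_self _ (hAdet 1 0), Matrix.one_mul]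
  have hA12 : A 1 2 = A 1 0 * x2 := by
    rw [hx2, ← Matrix.mul_assoc, mul_adj_self _ (hAdet 1 0), Matrix.one_mul]
  have hA21 : A 2 1 = A 2 0 * y := by
    rw [hy, ← Matrix.mul_assoc, mul_adj_self _ (hAdet 2 0), Matrix.one_mul]
  have hA22 : A 2 2 = A 2 0 * y2 := by
    rw [hy2, ← Matrix.mul_assoc, mul_adj_self _ (hAdet 2 0), Matrix.one_mul]
  have hxy : 1 + x * y2 + x2 * y = 0 := by
    have h1 : (A 1 0).adjugate * (A 1 0 * (A 2 0).adjugate + A 1 1 * (A 2 1).adjugate +
        A 1 2 * (A 2 2).adjugate) * A 2 0 = 1 + x * y2 + x2 * y := by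
      have h21 : (A 2 1).adjugate = y2 * (A 2 0).adjugate := by
        rw [hA21, adj_mul, hyadj]
      have h22 : (A 2 2).adjugate = y * (A 2 0).adjugate := by
        rw [hA22, adj_mul, ← hyadj, adj_adj]
      rw [hA11, hA12, h21, h22]
      have e1 : (A 1 0).adjugate * (A 1 0 * (A 2 0).adjugate + A 1 0 * x * (y2 * (A 2 0).adjugate) +
          A 1 0 * x2 * (y * (A 2 0).adjugate)) * A 2 0 =
          ((A 1 0).adjugate * A 1 0) * (1 + x * y2 + x2 * y) * ((A 2 0).adjugate * A 2 0) := by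
        simp only [Matrix.mul_add, Matrix.add_mul, Matrix.mul_assoc, Matrix.mul_one, Matrix.one_mul]
      rw [e1, adj_mul_self _ (hAdet 1 0), adj_mul_self _ (hAdet 2 0)]
      simp
    rw [← h1, hs12]
    simp
  have hx2' : x2 = -1 - x := by
    have : x2 = 0 - 1 - x := by rw [← hxs]; abel
    rw [this]; simp
  have hy2' : y2 = -1 - y := by
    have : y2 = 0 - 1 - y := by rw [← hys]; abel
    rw [this]; simp
  have hyx : y = x2 := by
    -- (2x+1) y = 1 - x
    have h1 : (2 : ℂ) • (x * y) + y = 1 - x := by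
      rw [hx2', hy2'] at hxy
      have : (1 : M2) + x * (-1 - y) + (-1 - x) * y = 1 - x - y - (2 : ℂ) • (x * y) := by
        rw [two_smul]; noncomm_ring
      rw [this] at hxy
      have h2 : (2 : ℂ) • (x * y) + y = (1 - x) - (1 - x - y - (2 : ℂ) • (x * y)) := by abel
      rw [h2, hxy, sub_zero]
    have h2 : ((2 : ℂ) • x + 1) * ((2 : ℂ) • (x * y) + y) = ((2 : ℂ) • x + 1) * (1 - x) := by
      rw [h1]
    have h3 : ((2 : ℂ) • x + 1) * ((2 : ℂ) • (x * y) + y) =
        (4 : ℂ) • ((x * x) * y) + (4 : ℂ) • (x * y) + y := by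
      simp only [Matrix.add_mul, Matrix.mul_add, Matrix.smul_mul, Matrix.mul_smul, Matrix.one_mul,
        smul_smul, Matrix.mul_assoc]
      module
    have h4 : ((2 : ℂ) • x + 1) * (1 - x) = (2 : ℂ) • x - (2 : ℂ) • (x * x) + 1 - x := by
      simp only [Matrix.add_mul, Matrix.mul_sub, Matrix.smul_mul, Matrix.mul_one, Matrix.one_mul]
      module
    rw [h3, h4, hxx, hx2'] at h2
    have h5 : (4 : ℂ) • ((-1 - x) * y) + (4 : ℂ) • (x * y) + y = (-3 : ℂ) • y := by
      simp only [Matrix.sub_mul, Matrix.neg_mul, Matrix.one_mul]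
      module
    rw [h5] at h2
    have h6 : y = (-1 / 3 : ℂ) • ((-3 : ℂ) • y) := by rw [smul_smul]; norm_num
    rw [h6, h2, hx2']
    module
  -- diagonalise x
  obtain ⟨P, hPdet, hP⟩ := diag3 w hw x hxdet hxtr
  have hx_eq : x = P * !![w, 0; 0, w ^ 2] * P.adjugate := by
    rw [← hP, Matrix.mul_assoc, mul_adj_self _ hPdet, Matrix.mul_one]
  have hdiag2 : (!![w, 0; 0, w ^ 2] : M2) * !![w, 0; 0, w ^ 2] = !![w ^ 2, 0; 0, w] := by
    apply M2_ext <;> simp [Matrix.mul_apply, Fin.sum_univ_two]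
    · ring
    · linear_combination w * hw3
  have hx2_eq : x2 = P * !![w ^ 2, 0; 0, w] * P.adjugate := by
    rw [← hxx, hx_eq]
    have : P * !![w, 0; 0, w ^ 2] * P.adjugate * (P * !![w, 0; 0, w ^ 2] * P.adjugate) =
        P * (!![w, 0; 0, w ^ 2] * (P.adjugate * P) * !![w, 0; 0, w ^ 2]) * P.adjugate := by
      simp only [Matrix.mul_assoc]
    rw [this, adj_mul_self _ hPdet, Matrix.mul_one, hdiag2]
  have hz : ∀ k a, ∃ e : M2, A k a = A k 0 * (P * zt w k a * P.adjugate) := by
    intro k a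
    refine ⟨1, ?_⟩
    have z1 : zt w 1 1 = !![w, 0; 0, w ^ 2] := by
      unfold zt; simp
    have z2 : zt w 1 2 = !![w ^ 2, 0; 0, w] := by
      unfold zt
      apply M2_ext <;> simp
      linear_combination w * hw3
    have z3 : zt w 2 1 = !![w ^ 2, 0; 0, w] := by
      unfold zt
      apply M2_ext <;> simp
      linear_combination w * hw3
    have z4 : zt w 2 2 = !![w, 0; 0, w ^ 2] := by
      unfold zt
      apply M2_ext <;> simp
      · linear_combination w * hw3
      · linear_combination (w ^ 5 + w ^ 2) * hw3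
    have z0 : ∀ a, zt w 0 a = 1 := by
      intro a; unfold zt
      apply M2_ext <;> simp
    have z0' : ∀ k, zt w k 0 = 1 := by
      intro a; unfold zt
      apply M2_ext <;> simp
    fin_cases k
    · simp [hA0, z0, mul_adj_self _ hPdet]
    · fin_cases a
      · simp [z0', mul_adj_self _ hPdet]
      · simp only [Fin.mk_one, z1]; rw [← hx_eq]; exact hA11
      · simp only [Fin.mk_one, Fin.reduceFinMk, z2]; rw [← hx2_eq]; exact hA12
    · fin_cases a
      · simp [z0', mul_adj_self _ hPdet]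
      · simp only [Fin.mk_one, Fin.reduceFinMk, z3]; rw [← hx2_eq, ← hyx]; exact hA21
      · simp only [Fin.reduceFinMk, z4]
        have : y2 = x := by
          rw [← hyadj, hyx, ← hxadj, adj_adj]
        rw [← hx_eq, ← this]; exact hA22
  refine ⟨fun k => A k 0 * P, ?_, ?_⟩
  · intro k
    rw [Matrix.det_mul, hAdet, hPdet, one_mul]
  · intro a k l
    rw [hAA]
    congr 1
    obtain ⟨-, h1⟩ := hz k a
    obtain ⟨-, h2⟩ := hz l a
    rw [h1, h2]
    simp only [adj_mul, adj_adj, Matrix.mul_assoc]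
    rw [← Matrix.mul_assoc P.adjugate P, adj_mul_self _ hPdet, Matrix.one_mul]

end Pool.Agent.OD
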