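import Mathlib
import Pool.Agent.OD.Frames2
import Pool.Agent.OD.Normal

set_option autoImplicit false

/-! Blocks of the plane projections of a normalised frame family. -/

namespace Pool.Agent.OD

open Matrix

theorem hh_conj (U G : Matrix I6 I6 ℂ) (a : Fin 3) : hh (sa U * G) a = sa U * hh G a * U := by
  unfold hh
  rw [sa_mul, sa_sa]
  simp only [Matrix.mul_assoc]

theorem normalise {G : Fin 7 → Matrix I6 I6 ℂ} (F : FrameFamily 7 G) :
    FrameFamily 7 (fun i => sa (G 0) * G i) := by
  have hU := F.unit 0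
  have hU' := unit_symm hU
  refine ⟨?_, ?_, ?_⟩
  · intro i
    rw [sa_mul, sa_sa]
    have : sa (G 0) * G i * (sa (G i) * G 0) = sa (G 0) * (G i * sa (G i)) * G 0 := by
      simp only [Matrix.mul_assoc]
    rw [this, F.unit i, Matrix.mul_one, hU']
  · intro i j hij a b
    rw [hh_conj, hh_conj]
    have : sa (G 0) * hh (G i) a * G 0 * (sa (G 0) * hh (G j) b * G 0) =
        sa (G 0) * (hh (G i) a * (G 0 * sa (G 0)) * hh (G j) b * G 0) := by
      simp only [Matrix.mul_assoc]
    rw [this, hU, Matrix.mul_one, Matrix.trace_mul_comm,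
      show hh (G i) a * hh (G j) b * G 0 * sa (G 0) = hh (G i) a * hh (G j) b * (G 0 * sa (G 0)) by
        simp only [Matrix.mul_assoc], hU, Matrix.mul_one]
    exact F.orth i j hij a b
  · intro Z hZ
    obtain ⟨t, ht⟩ := F.span (G 0 * Z * sa (G 0)) (by
      rw [sa_mul, sa_mul, sa_sa, hZ]
      simp [Matrix.mul_assoc])
    refine ⟨t, ?_⟩
    have h1 : sa (G 0) * (G 0 * Z * sa (G 0)) * G 0 = Z := by
      have : sa (G 0) * (G 0 * Z * sa (G 0)) * G 0 = (sa (G 0) * G 0) * Z * (sa (G 0) * G 0) := by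
        simp only [Matrix.mul_assoc]
      rw [this, hU', Matrix.one_mul, Matrix.mul_one]
    rw [← h1, ht, Matrix.mul_sum, Matrix.sum_mul]
    apply Finset.sum_congr rfl
    intro i _
    rw [Matrix.mul_sum, Matrix.sum_mul]
    apply Finset.sum_congr rfl
    intro a _
    rw [Matrix.mul_smul, Matrix.smul_mul]
    congr 1
    exact (hh_conj _ _ _).symm

theorem blk_apply (X : Matrix I6 I6 ℂ) (k l : Fin 3) (α β : Fin 2) :
    blk X k l α β = X (k, α) (l, β) := rfl

theorem mul_E0_apply (G : Matrix I6 I6 ℂ) (a : Fin 3) (x : I6) (m : Fin 3) (γ : Fin 2) :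
    (G * E0 a) x (m, γ) = if m = a then G x (m, γ) else 0 := by
  unfold E0
  rw [Matrix.mul_diagonal]
  split_ifs <;> simp_all

theorem blk_RR (G : Matrix I6 I6 ℂ) (a k l : Fin 3) :
    blk (RR G a) k l = blk G k a * (blk G l a).adjugate := by
  rw [← blk_sa]
  ext α β
  rw [blk_apply, RR, Matrix.mul_apply (M := G * E0 a), Fintype.sum_prod_type,
    Finset.sum_eq_single a, Matrix.mul_apply]
  · apply Finset.sum_congr rfl
    intro γ _
    rw [mul_E0_apply, if_pos rfl, blk_apply, blk_apply]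
  · intro m _ hm
    apply Finset.sum_eq_zero
    intro γ _
    rw [mul_E0_apply, if_neg hm, zero_mul]
  · intro h; exact absurd (Finset.mem_univ _) h

theorem sum_blk_RR {G : Matrix I6 I6 ℂ} (h : G * sa G = 1) (k l : Fin 3) :
    ∑ a, blk (RR G a) k l = if k = l then 1 else 0 := by
  have h1 := sum_RR h
  ext α β
  rw [Matrix.sum_apply]
  have h2 := congrFun (congrFun h1 (k, α)) (l, β)
  rw [Matrix.sum_apply] at h2
  simp only [blk_apply]
  rw [h2, Matrix.one_apply]
  by_cases hkl : k = l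
  · subst hkl
    rw [if_pos rfl, Matrix.one_apply]
    by_cases hαβ : α = β <;> simp [hαβ]
  · simp [hkl]

theorem RR_one (k : Fin 3) : RR 1 k = E0 k := by
  unfold RR
  rw [sa_one, Matrix.one_mul, Matrix.mul_one]

theorem trace_E0_mul (X : Matrix I6 I6 ℂ) (k : Fin 3) : (E0 k * X).trace = (blk X k k).trace := by
  unfold Matrix.trace
  rw [Fintype.sum_prod_type, Finset.sum_eq_single k]
  · apply Finset.sum_congr rfl
    intro α _
    simp [Matrix.diag, Matrix.diagonal_mul, E0, blk_apply]
  · intro l _ hl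
    apply Finset.sum_eq_zero
    intro α _
    simp [Matrix.diag, Matrix.diagonal_mul, hl, E0]
  · intro h; exact absurd (Finset.mem_univ _) h

theorem trace_mul_blk (X Y : Matrix I6 I6 ℂ) :
    (X * Y).trace = ∑ k, ∑ l, (blk X k l * blk Y l k).trace := by
  unfold Matrix.trace
  rw [Fintype.sum_prod_type]
  apply Finset.sum_congr rfl
  intro k _
  simp only [Matrix.diag, Matrix.mul_apply, Fintype.sum_prod_type, blk_apply]
  rw [Finset.sum_comm]

theorem det_blk {G : Fin 7 → Matrix I6 I6 ℂ} (F : FrameFamily 7 G) (h0 : G 0 = 1) (i : Fin 7)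
    (hi : i ≠ 0) (k a : Fin 3) : (blk (G i) k a).det = 1 / 3 := by
  have h := unbiased F 0 i (fun h => hi h.symm) k a
  rw [h0, RR_one, trace_E0_mul, blk_RR, Matrix.mul_adjugate, Matrix.trace_smul] at h
  simp only [Matrix.trace_one, Fintype.card_fin, smul_eq_mul] at h
  push_cast at h
  linear_combination (1 / 2 : ℂ) * h

/-- Normal form of the blocks of all projections. -/
theorem exists_p (w : ℂ) (hw : w ^ 2 + w + 1 = 0) {G : Fin 7 → Matrix I6 I6 ℂ}
    (F : FrameFamily 7 G) (h0 : G 0 = 1) :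
    ∃ p : Fin 6 → Fin 3 → M2, (∀ i k, (p i k).det = 1) ∧
      ∀ i a k l, blk (RR (G i.succ) a) k l =
        (1 / 3 : ℂ) • (p i k * zt w k a * (p i l * zt w l a).adjugate) := by
  have h : ∀ i : Fin 6, ∃ p : Fin 3 → M2, (∀ k, (p k).det = 1) ∧
      ∀ a k l, blk (RR (G i.succ) a) k l =
        (1 / 3 : ℂ) • (p k * zt w k a * (p l * zt w l a).adjugate) := by
    intro i
    obtain ⟨p, hp1, hp2⟩ := normal_form w hw (fun k a => blk (G i.succ) k a)
      (by
        intro k l
        rw [← sum_blk_RR (F.unit i.succ) k l]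
        apply Finset.sum_congr rfl
        intro a _
        rw [blk_RR])
      (fun k a => det_blk F h0 i.succ (Fin.succ_ne_zero i) k a)
    refine ⟨p, hp1, ?_⟩
    intro a k l
    rw [blk_RR, hp2]
  choose p hp using h
  exact ⟨p, fun i => (hp i).1, fun i => (hp i).2⟩

end Pool.Agent.OD
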