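import Mathlib
import Pool.Agent.OD.Blocks

set_option autoImplicit false

/-! The four equations coming from unbiasedness. -/

namespace Pool.Agent.OD

open Matrix

/-- trace of the elementary term. -/
theorem trace_term (u u' v v' : ℂ) (X Y : M2) :
    ((!![u, 0; 0, u'] : M2) * X * !![v, 0; 0, v'] * Y.adjugate).trace =
      u * v * (X 0 0 * Y 1 1) - u * v' * (X 0 1 * Y 1 0) - u' * v * (X 1 0 * Y 0 1) +
      u' * v' * (X 1 1 * Y 0 0) := by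
  rw [Matrix.adjugate_fin_two, Matrix.trace_fin_two]
  simp only [Matrix.mul_apply, Fin.sum_univ_two, Matrix.of_apply, Matrix.cons_val',
    Matrix.cons_val_zero, Matrix.cons_val_one, Matrix.cons_val_fin_one]
  ring

theorem zt_adj (w : ℂ) (k l a : Fin 3) :
    zt w k a * (zt w l a).adjugate =
      !![w ^ (k.val * a.val + 2 * (l.val * a.val)), 0; 0, w ^ (2 * (k.val * a.val) + l.val * a.val)] := by
  unfold zt
  rw [Matrix.adjugate_fin_two]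
  apply M2_ext <;> simp [Matrix.mul_apply, Fin.sum_univ_two, pow_add]

theorem S_eqs (w : ℂ) (hw : w ^ 2 + w + 1 = 0) (X : Fin 3 → M2) (hdet : ∀ k, (X k).det = 1)
    (h : ∀ a b, ∑ k, ∑ l, (zt w k a * (zt w l a).adjugate * X l * (zt w l b * (zt w k b).adjugate) *
      (X k).adjugate).trace = 6) :
    X 0 0 0 * X 1 1 1 + X 1 0 0 * X 2 1 1 + X 2 0 0 * X 0 1 1 = 0 ∧
    X 1 0 0 * X 0 1 1 + X 2 0 0 * X 1 1 1 + X 0 0 0 * X 2 1 1 = 0 ∧
    X 0 0 1 * X 1 1 0 + X 1 0 1 * X 2 1 0 + X 2 0 1 * X 0 1 0 = 0 ∧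
    X 1 0 1 * X 0 1 0 + X 2 0 1 * X 1 1 0 + X 0 0 1 * X 2 1 0 = 0 := by
  have hw3 : w ^ 3 = 1 := by linear_combination (w - 1) * hw
  have hw4 : w ^ 4 = w := by linear_combination w * hw3
  have hw5 : w ^ 5 = w ^ 2 := by linear_combination w ^ 2 * hw3
  have hw6 : w ^ 6 = 1 := by linear_combination (w ^ 3 + 1) * hw3
  have hw8 : w ^ 8 = w ^ 2 := by linear_combination (w ^ 5 + w ^ 2) * hw3
  have hw12 : w ^ 12 = 1 := by linear_combination (w ^ 9 + w ^ 6 + w ^ 3 + 1) * hw3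
  have hw10 : w ^ 10 = w := by linear_combination (w ^ 7 + w ^ 4 + w) * hw3
  have d0 := hdet 0
  have d1 := hdet 1
  have d2 := hdet 2
  rw [Matrix.det_fin_two] at d0 d1 d2
  have h00 := h 0 0
  have h11 := h 1 1
  have h22 := h 2 2
  have h10 := h 1 0
  simp only [Fin.sum_univ_three, zt_adj, trace_term] at h00 h11 h22 h10
  have v0 : ((0 : Fin 3).val) = 0 := rfl
  have v1 : ((1 : Fin 3).val) = 1 := rfl
  have v2 : ((2 : Fin 3).val) = 2 := rfl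
  simp only [v0, v1, v2] at h00 h11 h22 h10
  obtain ⟨Pp, hPp⟩ : ∃ z, z = X 0 0 0 * X 1 1 1 + X 1 0 0 * X 2 1 1 + X 2 0 0 * X 0 1 1 := ⟨_, rfl⟩
  obtain ⟨Pm, hPm⟩ : ∃ z, z = X 1 0 0 * X 0 1 1 + X 2 0 0 * X 1 1 1 + X 0 0 0 * X 2 1 1 := ⟨_, rfl⟩
  obtain ⟨Qp, hQp⟩ : ∃ z, z = X 0 0 1 * X 1 1 0 + X 1 0 1 * X 2 1 0 + X 2 0 1 * X 0 1 0 := ⟨_, rfl⟩
  obtain ⟨Qm, hQm⟩ : ∃ z, z = X 1 0 1 * X 0 1 0 + X 2 0 1 * X 1 1 0 + X 0 0 1 * X 2 1 0 := ⟨_, rfl⟩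
  rw [← hPp, ← hPm, ← hQp, ← hQm]
  have e00 : Pp + Pm - Qp - Qm = 0 := by
    rw [hPp, hPm, hQp, hQm]
    linear_combination h00 / 2 - d0 - d1 - d2
  have e11 : Pp + Pm - w ^ 2 * Qp - w * Qm = 0 := by
    have h11' : w ^ 3 * (Pp + Pm) - w ^ 2 * Qp - w ^ 4 * Qm = 0 := by
      rw [hPp, hPm, hQp, hQm]
      norm_num only [hw5, hw6, hw8, hw10, hw12, hw4, hw3] at h11
      linear_combination h11 / 2 - d0 - d1 - d2
    linear_combination h11' - (Pp + Pm) * hw3 + w * Qm * hw3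
  have e22 : Pp + Pm - w * Qp - w ^ 2 * Qm = 0 := by
    have h22' : w ^ 3 * (Pp + Pm) - w ^ 4 * Qp - w ^ 2 * Qm = 0 := by
      rw [hPp, hPm, hQp, hQm]
      norm_num only [hw5, hw6, hw8, hw10, hw12, hw4, hw3] at h22
      linear_combination h22 / 2 - d0 - d1 - d2
    linear_combination h22' - (Pp + Pm) * hw3 + w * Qp * hw3
  have e10 : w * Pp + w ^ 2 * Pm - w * Qp - w ^ 2 * Qm = 0 := by
    rw [hPp, hPm, hQp, hQm]
    norm_num only [hw5, hw6, hw8, hw10, hw12, hw4, hw3] at h10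
    linear_combination h10 / 2 - d0 - d1 - d2
  have hP0 : Pp + Pm = 0 := by
    linear_combination (1 / 3 : ℂ) * (e00 + e11 + e22) + (1 / 3 : ℂ) * (Qp + Qm) * hw
  have hQp0 : Qp = 0 := by
    linear_combination -(1 / 3 : ℂ) * (e00 + w ^ 2 * e22 + w * e11) +
      (-(2 / 3 : ℂ) * Qp * (w - 1) + (1 / 3 : ℂ) * (Pp + Pm) -
        (1 / 3 : ℂ) * Qm * (w ^ 2 - w + 1)) * hw
  have hQm0 : Qm = 0 := by
    linear_combination hP0 - e00 - hQp0
  have hPm0 : Pm = 0 := by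
    have h1 : (w ^ 2 - w) * Pm = 0 := by
      linear_combination e10 - w * hP0 + w * hQp0 + w ^ 2 * hQm0
    have h2 : (3 : ℂ) * Pm = 0 := by
      linear_combination -(w ^ 2 - w) * h1 + (w ^ 2 - 3 * w + 3) * Pm * hw
    linear_combination (1 / 3 : ℂ) * h2
  have hPp0 : Pp = 0 := by
    linear_combination hP0 - hPm0
  exact ⟨hPp0, hPm0, hQp0, hQm0⟩

end Pool.Agent.OD
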