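import Mathlib
import Pool.Agent.OD.SEq
import Pool.Agent.OD.LinAlg
import Pool.Agent.OD_PolyL1

set_option autoImplicit false

/-! Nonexistence of a family of frames. -/

namespace Pool.Agent.OD

open Matrix

/-- Transition matrices between two frames. -/
def Xt (p : Fin 6 → Fin 3 → M2) (i j : Fin 6) (k : Fin 3) : M2 := (p i k).adjugate * p j k

theorem det_Xt {p : Fin 6 → Fin 3 → M2} (hp : ∀ i k, (p i k).det = 1) (i j : Fin 6) (k : Fin 3) :
    (Xt p i j k).det = 1 := by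
  unfold Xt
  rw [Matrix.det_mul, det_adj, hp, hp, one_mul]

theorem S_frames (w : ℂ) {G : Fin 7 → Matrix I6 I6 ℂ} (F : FrameFamily 7 G)
    (p : Fin 6 → Fin 3 → M2)
    (hp2 : ∀ i a k l, blk (RR (G i.succ) a) k l =
        (1 / 3 : ℂ) • (p i k * zt w k a * (p i l * zt w l a).adjugate))
    (i j : Fin 6) (hij : i ≠ j) (a b : Fin 3) :
    ∑ k, ∑ l, (zt w k a * (zt w l a).adjugate * Xt p i j l * (zt w l b * (zt w k b).adjugate) *
      (Xt p i j k).adjugate).trace = 6 := by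
  have h := unbiased F i.succ j.succ (fun h => hij (Fin.succ_injective _ h)) a b
  rw [trace_mul_blk] at h
  have h1 : ∀ k l, (blk (RR (G i.succ) a) k l * blk (RR (G j.succ) b) l k).trace =
      (1 / 9) * (zt w k a * (zt w l a).adjugate * Xt p i j l * (zt w l b * (zt w k b).adjugate) *
      (Xt p i j k).adjugate).trace := by
    intro k l
    rw [hp2, hp2, Matrix.smul_mul, Matrix.mul_smul, smul_smul, Matrix.trace_smul, smul_eq_mul]
    congr 1
    · norm_num
    · unfold Xt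
      simp only [adj_mul, adj_adj]
      have e1 : p i k * zt w k a * ((zt w l a).adjugate * (p i l).adjugate) *
          (p j l * zt w l b * ((zt w k b).adjugate * (p j k).adjugate)) =
          p i k * (zt w k a * (zt w l a).adjugate * ((p i l).adjugate *
          p j l) * (zt w l b * (zt w k b).adjugate) * (p j k).adjugate) := by
        simp only [Matrix.mul_assoc]
      rw [e1, Matrix.trace_mul_comm]
      simp only [Matrix.mul_assoc]
  simp only [h1, ← Finset.mul_sum] at h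
  linear_combination 9 * h

/-- the symmetric coordinates of n -/
def Sn (P : M2) : Fin 3 → ℂ := ![2 * P 0 0 * P 0 1, P 0 0 * P 1 1 + P 0 1 * P 1 0, 2 * P 1 0 * P 1 1]

theorem h3_raw {G : Fin 7 → Matrix I6 I6 ℂ} (F : FrameFamily 7 G) (h0 : G 0 = 1)
    (k l : Fin 3) (hkl : k ≠ l) (α β γ δ : Fin 2) :
    ∑ i : Fin 6, ∑ a, blk (RR (G i.succ) a) k l α β * blk (RR (G i.succ) a) k l γ δ =
      eps α γ * eps β δ := by
  have h := congrFun (congrFun (T2 F (Matrix.single (l, β) (k, α) (1 : ℂ))) (k, γ)) (l, δ)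
  simp only [Matrix.sum_apply, Matrix.smul_apply, smul_eq_mul, Matrix.add_apply] at h
  have h1 : ∀ i a, (RR (G i) a * Matrix.single (l, β) (k, α) (1 : ℂ)).trace =
      RR (G i) a (k, α) (l, β) := by
    intro i a
    rw [Matrix.trace_mul_comm, single_trace]
  simp only [h1] at h
  rw [sa_single, Fin.sum_univ_succ, h0] at h
  have h2 : ∀ a, RR 1 a (k, α) (l, β) = 0 := by
    intro a
    rw [RR_one]
    unfold E0
    rw [Matrix.diagonal_apply_ne]
    intro h
    exact hkl (Prod.ext_iff.1 h).1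
  simp only [h2, zero_mul, Finset.sum_const_zero, zero_add] at h
  simp only [blk_apply]
  rw [h]
  have h3 : Matrix.single (l, β) (k, α) (1 : ℂ) (k, γ) (l, δ) = 0 := by
    rw [Matrix.single_apply, if_neg]
    rintro ⟨h, -⟩
    exact hkl (Prod.ext_iff.1 h).1.symm
  have h4 : (Matrix.single (l, β) (k, α) (1 : ℂ)).trace = 0 := by
    rw [Matrix.trace_single_eq_of_ne]
    intro h
    exact hkl (Prod.ext_iff.1 h).1.symm
  have h5 : Om (k, γ) (k, α) = - eps α γ := by
    unfold Om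
    rw [if_pos rfl]
    fin_cases α <;> fin_cases γ <;> simp [eps]
  have h6 : Om (l, β) (l, δ) = eps β δ := by
    unfold Om
    rw [if_pos rfl]
  rw [h3, h4, h5, h6]
  ring

theorem entry_formula (w : ℂ) (P Q : M2) (k l a : Fin 3) (α β : Fin 2) :
    (P * zt w k a * (Q * zt w l a).adjugate) α β =
      P α 0 * w ^ (k.val * a.val + 2 * (l.val * a.val)) * Q.adjugate 0 β +
      P α 1 * w ^ (2 * (k.val * a.val) + l.val * a.val) * Q.adjugate 1 β := by
  have h : P * zt w k a * (Q * zt w l a).adjugate =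
      P * (zt w k a * (zt w l a).adjugate) * Q.adjugate := by
    rw [adj_mul]
    simp only [Matrix.mul_assoc]
  rw [h, zt_adj, Matrix.mul_apply, Fin.sum_univ_two, Matrix.mul_apply, Fin.sum_univ_two,
    Matrix.mul_apply, Fin.sum_univ_two]
  simp only [Matrix.of_apply, Matrix.cons_val', Matrix.cons_val_zero, Matrix.cons_val_one,
    Matrix.cons_val_fin_one]
  ring

theorem sum_three_pow (w : ℂ) (hw : w ^ 2 + w + 1 = 0) (k l : Fin 3) (hkl : k ≠ l)
    (A B A' B' : ℂ) :
    ∑ a : Fin 3, (A * w ^ (k.val * a.val + 2 * (l.val * a.val)) +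
        B * w ^ (2 * (k.val * a.val) + l.val * a.val)) *
      (A' * w ^ (k.val * a.val + 2 * (l.val * a.val)) +
        B' * w ^ (2 * (k.val * a.val) + l.val * a.val)) = 3 * (A * B' + B * A') := by
  have hw3 : w ^ 3 = 1 := by linear_combination (w - 1) * hw
  have hw4 : w ^ 4 = w := by linear_combination w * hw3
  have hw5 : w ^ 5 = w ^ 2 := by linear_combination w ^ 2 * hw3
  have hw6 : w ^ 6 = 1 := by linear_combination (w ^ 3 + 1) * hw3
  have hw8 : w ^ 8 = w ^ 2 := by linear_combination (w ^ 5 + w ^ 2) * hw3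
  have hw12 : w ^ 12 = 1 := by linear_combination (w ^ 9 + w ^ 6 + w ^ 3 + 1) * hw3
  have hw10 : w ^ 10 = w := by linear_combination (w ^ 7 + w ^ 4 + w) * hw3
  have v0 : ((0 : Fin 3).val) = 0 := rfl
  have v1 : ((1 : Fin 3).val) = 1 := rfl
  have v2 : ((2 : Fin 3).val) = 2 := rfl
  rw [Fin.sum_univ_three]
  have hk : k = 0 ∨ k = 1 ∨ k = 2 := by fin_cases k <;> simp
  have hl : l = 0 ∨ l = 1 ∨ l = 2 := by fin_cases l <;> simp
  rcases hk with rfl | rfl | rfl <;> rcases hl with rfl | rfl | rfl <;>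
    first
    | exact absurd rfl hkl
    | (simp only [v0, v1, v2]
       norm_num only [hw5, hw6, hw8, hw10, hw12, hw4, hw3]
       linear_combination (A * A' + B * B') * hw +
         ((A * A' + B * B') * w + 2 * (A * B' + B * A')) * hw3)

theorem h3_f (w : ℂ) (hw : w ^ 2 + w + 1 = 0) {G : Fin 7 → Matrix I6 I6 ℂ} (F : FrameFamily 7 G)
    (h0 : G 0 = 1) (p : Fin 6 → Fin 3 → M2)
    (hp2 : ∀ i a k l, blk (RR (G i.succ) a) k l =
        (1 / 3 : ℂ) • (p i k * zt w k a * (p i l * zt w l a).adjugate))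
    (k l : Fin 3) (hkl : k ≠ l) (α β γ δ : Fin 2) :
    ∑ i : Fin 6, (p i k α 0 * p i k γ 1 * ((p i l).adjugate 0 β * (p i l).adjugate 1 δ) +
      p i k α 1 * p i k γ 0 * ((p i l).adjugate 1 β * (p i l).adjugate 0 δ)) =
      3 * (eps α γ * eps β δ) := by
  have h := h3_raw F h0 k l hkl α β γ δ
  have h1 : ∀ i : Fin 6, ∑ a, blk (RR (G i.succ) a) k l α β * blk (RR (G i.succ) a) k l γ δ =
      (1 / 3) * (p i k α 0 * p i k γ 1 * ((p i l).adjugate 0 β * (p i l).adjugate 1 δ) +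
      p i k α 1 * p i k γ 0 * ((p i l).adjugate 1 β * (p i l).adjugate 0 δ)) := by
    intro i
    have h2 := sum_three_pow w hw k l hkl (p i k α 0 * (p i l).adjugate 0 β)
      (p i k α 1 * (p i l).adjugate 1 β) (p i k γ 0 * (p i l).adjugate 0 δ)
      (p i k γ 1 * (p i l).adjugate 1 δ)
    have h3 : ∀ a : Fin 3, blk (RR (G i.succ) a) k l α β * blk (RR (G i.succ) a) k l γ δ =
        (1 / 9) * ((p i k α 0 * (p i l).adjugate 0 β * w ^ (k.val * a.val + 2 * (l.val * a.val)) +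
          p i k α 1 * (p i l).adjugate 1 β * w ^ (2 * (k.val * a.val) + l.val * a.val)) *
          (p i k γ 0 * (p i l).adjugate 0 δ * w ^ (k.val * a.val + 2 * (l.val * a.val)) +
          p i k γ 1 * (p i l).adjugate 1 δ * w ^ (2 * (k.val * a.val) + l.val * a.val))) := by
      intro a
      rw [hp2, Matrix.smul_apply, Matrix.smul_apply, entry_formula, entry_formula, smul_eq_mul,
        smul_eq_mul]
      ring
    rw [Finset.sum_congr rfl fun a _ => h3 a, ← Finset.mul_sum, h2]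
    ring
  rw [Finset.sum_congr rfl fun i _ => h1 i, ← Finset.mul_sum] at h
  linear_combination 3 * h

/-- Orthogonality of the symmetric coordinates. -/
theorem S_orth (w : ℂ) (hw : w ^ 2 + w + 1 = 0) {G : Fin 7 → Matrix I6 I6 ℂ} (F : FrameFamily 7 G)
    (h0 : G 0 = 1) (p : Fin 6 → Fin 3 → M2)
    (hp2 : ∀ i a k l, blk (RR (G i.succ) a) k l =
        (1 / 3 : ℂ) • (p i k * zt w k a * (p i l * zt w l a).adjugate))
    (k l : Fin 3) (hkl : k ≠ l) (x y : Fin 3) :
    ∑ i : Fin 6, Sn (p i k) x * Sn (p i l) y = 0 := by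
  have hf := h3_f w hw F h0 p hp2 k l hkl
  have e00 : eps 0 0 = 0 := rfl
  have e11 : eps 1 1 = 0 := rfl
  have e01 : eps 0 1 = 1 := rfl
  have e10 : eps 1 0 = -1 := rfl
  have a00 : ∀ i, (p i l).adjugate 0 0 = p i l 1 1 := by
    intro i; rw [Matrix.adjugate_fin_two]; rfl
  have a01 : ∀ i, (p i l).adjugate 0 1 = - p i l 0 1 := by
    intro i; rw [Matrix.adjugate_fin_two]; rfl
  have a10 : ∀ i, (p i l).adjugate 1 0 = - p i l 1 0 := by
    intro i; rw [Matrix.adjugate_fin_two]; rfl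
  have a11 : ∀ i, (p i l).adjugate 1 1 = p i l 0 0 := by
    intro i; rw [Matrix.adjugate_fin_two]; rfl
  have s0 : ∀ P : M2, Sn P 0 = 2 * P 0 0 * P 0 1 := fun P => rfl
  have s1 : ∀ P : M2, Sn P 1 = P 0 0 * P 1 1 + P 0 1 * P 1 0 := fun P => rfl
  have s2 : ∀ P : M2, Sn P 2 = 2 * P 1 0 * P 1 1 := fun P => rfl
  have hx : x = 0 ∨ x = 1 ∨ x = 2 := by fin_cases x <;> simp
  have hy : y = 0 ∨ y = 1 ∨ y = 2 := by fin_cases y <;> simp
  rcases hx with rfl | rfl | rfl <;> rcases hy with rfl | rfl | rfl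
  · have h := hf 0 1 0 1
    rw [e00, zero_mul, mul_zero] at h
    simp only [a00, a01, a10, a11] at h
    rw [← mul_zero (-2 : ℂ), ← h, Finset.mul_sum]
    apply Finset.sum_congr rfl
    intro i _
    rw [s0, s0]; ring
  · have h := hf 0 0 0 1
    rw [e00, zero_mul, mul_zero] at h
    simp only [a00, a01, a10, a11] at h
    rw [← mul_zero (2 : ℂ), ← h, Finset.mul_sum]
    apply Finset.sum_congr rfl
    intro i _
    rw [s0, s1]; ring
  · have h := hf 0 0 0 0
    rw [e00, zero_mul, mul_zero] at h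
    simp only [a00, a01, a10, a11] at h
    rw [← mul_zero (-2 : ℂ), ← h, Finset.mul_sum]
    apply Finset.sum_congr rfl
    intro i _
    rw [s0, s2]; ring
  · have h := hf 0 1 1 1
    rw [e11, mul_zero, mul_zero] at h
    simp only [a00, a01, a10, a11] at h
    rw [← mul_zero (-2 : ℂ), ← h, Finset.mul_sum]
    apply Finset.sum_congr rfl
    intro i _
    rw [s1, s0]; ring
  · have h := hf 0 0 1 1
    have h' := hf 0 1 1 0
    rw [e01, e10] at h'
    rw [e01] at h
    simp only [a00, a01, a10, a11] at h h'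
    have h3 : ∑ i : Fin 6, Sn (p i k) 1 * Sn (p i l) 1 = 3 * (1 * 1) + 3 * (1 * (-1)) := by
      rw [← h, ← h', ← Finset.sum_add_distrib]
      apply Finset.sum_congr rfl
      intro i _
      rw [s1, s1]; ring
    rw [h3]; ring
  · have h := hf 0 0 1 0
    rw [e00, mul_zero, mul_zero] at h
    simp only [a00, a01, a10, a11] at h
    rw [← mul_zero (-2 : ℂ), ← h, Finset.mul_sum]
    apply Finset.sum_congr rfl
    intro i _
    rw [s1, s2]; ring
  · have h := hf 1 1 1 1
    rw [e11, zero_mul, mul_zero] at h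
    simp only [a00, a01, a10, a11] at h
    rw [← mul_zero (-2 : ℂ), ← h, Finset.mul_sum]
    apply Finset.sum_congr rfl
    intro i _
    rw [s2, s0]; ring
  · have h := hf 1 0 1 1
    rw [e11, zero_mul, mul_zero] at h
    simp only [a00, a01, a10, a11] at h
    rw [← mul_zero (2 : ℂ), ← h, Finset.mul_sum]
    apply Finset.sum_congr rfl
    intro i _
    rw [s2, s1]; ring
  · have h := hf 1 0 1 0
    rw [e11, zero_mul, mul_zero] at h
    simp only [a00, a01, a10, a11] at h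
    rw [← mul_zero (-2 : ℂ), ← h, Finset.mul_sum]
    apply Finset.sum_congr rfl
    intro i _
    rw [s2, s2]; ring

/-- The Gram matrix of the axes in the plane k. -/
noncomputable def Gr (p : Fin 6 → Fin 3 → M2) (k : Fin 3) : Matrix (Fin 6) (Fin 6) ℂ :=
  fun i j => Sn (p i k) 1 * Sn (p j k) 1 -
    1 / 2 * (Sn (p i k) 0 * Sn (p j k) 2 + Sn (p i k) 2 * Sn (p j k) 0)

theorem Gr_symm (p : Fin 6 → Fin 3 → M2) (k : Fin 3) : (Gr p k)ᵀ = Gr p k := by
  ext i j
  rw [Matrix.transpose_apply]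
  unfold Gr
  ring

theorem Gr_eq (p : Fin 6 → Fin 3 → M2) (hp : ∀ i k, (p i k).det = 1) (k : Fin 3) (i j : Fin 6) :
    Gr p k i j = 1 + 2 * (Xt p i j k 0 1 * Xt p i j k 1 0) := by
  have h1 := hp i k
  have h2 := hp j k
  rw [Matrix.det_fin_two] at h1 h2
  have x01 : Xt p i j k 0 1 = p i k 1 1 * p j k 0 1 - p i k 0 1 * p j k 1 1 := by
    unfold Xt
    rw [Matrix.mul_apply, Fin.sum_univ_two, Matrix.adjugate_fin_two]
    simp only [Matrix.of_apply, Matrix.cons_val', Matrix.cons_val_zero, Matrix.cons_val_one,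
      Matrix.cons_val_fin_one]
    ring
  have x10 : Xt p i j k 1 0 = p i k 0 0 * p j k 1 0 - p i k 1 0 * p j k 0 0 := by
    unfold Xt
    rw [Matrix.mul_apply, Fin.sum_univ_two, Matrix.adjugate_fin_two]
    simp only [Matrix.of_apply, Matrix.cons_val', Matrix.cons_val_zero, Matrix.cons_val_one,
      Matrix.cons_val_fin_one]
    ring
  rw [x01, x10]
  have s0 : ∀ P : M2, Sn P 0 = 2 * P 0 0 * P 0 1 := fun P => rfl
  have s1 : ∀ P : M2, Sn P 1 = P 0 0 * P 1 1 + P 0 1 * P 1 0 := fun P => rfl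
  have s2 : ∀ P : M2, Sn P 2 = 2 * P 1 0 * P 1 1 := fun P => rfl
  unfold Gr
  simp only [s0, s1, s2]
  linear_combination (p j k 0 0 * p j k 1 1 - p j k 0 1 * p j k 1 0) * h1 + h2

theorem Xt_self (p : Fin 6 → Fin 3 → M2) (hp : ∀ i k, (p i k).det = 1) (k : Fin 3) (i : Fin 6) :
    Xt p i i k = 1 := by
  unfold Xt
  exact adj_mul_self _ (hp i k)

theorem Gr_diag (p : Fin 6 → Fin 3 → M2) (hp : ∀ i k, (p i k).det = 1) (k : Fin 3) (i : Fin 6) :
    Gr p k i i = 1 := by
  rw [Gr_eq p hp, Xt_self p hp]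
  simp

theorem Gr_prod (w : ℂ) (hw : w ^ 2 + w + 1 = 0) {G : Fin 7 → Matrix I6 I6 ℂ} (F : FrameFamily 7 G)
    (h0 : G 0 = 1) (p : Fin 6 → Fin 3 → M2)
    (hp2 : ∀ i a k l, blk (RR (G i.succ) a) k l =
        (1 / 3 : ℂ) • (p i k * zt w k a * (p i l * zt w l a).adjugate))
    (k l : Fin 3) (hkl : k ≠ l) : Gr p k * Gr p l = 0 := by
  have hS := S_orth w hw F h0 p hp2 k l hkl
  ext i j
  rw [Matrix.mul_apply, Matrix.zero_apply]
  have h1 : ∀ m, Gr p k i m * Gr p l m j =
      (Sn (p i k) 1 * Sn (p j l) 1) * (Sn (p m k) 1 * Sn (p m l) 1) +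
      (- 1 / 2 * Sn (p i k) 1 * Sn (p j l) 2) * (Sn (p m k) 1 * Sn (p m l) 0) +
      (- 1 / 2 * Sn (p i k) 1 * Sn (p j l) 0) * (Sn (p m k) 1 * Sn (p m l) 2) +
      (- 1 / 2 * Sn (p i k) 0 * Sn (p j l) 1) * (Sn (p m k) 2 * Sn (p m l) 1) +
      (- 1 / 2 * Sn (p i k) 2 * Sn (p j l) 1) * (Sn (p m k) 0 * Sn (p m l) 1) +
      (1 / 4 * Sn (p i k) 0 * Sn (p j l) 2) * (Sn (p m k) 2 * Sn (p m l) 0) +
      (1 / 4 * Sn (p i k) 0 * Sn (p j l) 0) * (Sn (p m k) 2 * Sn (p m l) 2) +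
      (1 / 4 * Sn (p i k) 2 * Sn (p j l) 2) * (Sn (p m k) 0 * Sn (p m l) 0) +
      (1 / 4 * Sn (p i k) 2 * Sn (p j l) 0) * (Sn (p m k) 0 * Sn (p m l) 2) := by
    intro m
    unfold Gr
    ring
  simp only [h1, Finset.sum_add_distrib, ← Finset.mul_sum, hS, mul_zero, add_zero]

theorem Xt_trans (p : Fin 6 → Fin 3 → M2) (hp : ∀ i k, (p i k).det = 1) (i j l : Fin 6)
    (k : Fin 3) : Xt p j l k = (Xt p i j k).adjugate * Xt p i l k := by
  unfold Xt
  rw [adj_mul, adj_adj]
  have : (p j k).adjugate * p i k * ((p i k).adjugate * p l k) =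
      (p j k).adjugate * (p i k * (p i k).adjugate) * p l k := by
    simp only [Matrix.mul_assoc]
  rw [this, mul_adj_self _ (hp i k), Matrix.mul_one]

/-- The cross relation between the rows. -/
theorem cross_rel (w : ℂ) (hw : w ^ 2 + w + 1 = 0) {G : Fin 7 → Matrix I6 I6 ℂ}
    (F : FrameFamily 7 G) (p : Fin 6 → Fin 3 → M2) (hp : ∀ i k, (p i k).det = 1)
    (hp2 : ∀ i a k l, blk (RR (G i.succ) a) k l =
        (1 / 3 : ℂ) • (p i k * zt w k a * (p i l * zt w l a).adjugate))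
    (i j l : Fin 6) (T : Fin 6 → Fin 3 → ℂ)
    (hT : ∀ j k, T j k = Xt p i j k 0 1 * Xt p i j k 1 0) :
    (T j 0 * T l 1 - T j 1 * T l 0) + (T j 1 * T l 2 - T j 2 * T l 1) +
      (T j 2 * T l 0 - T j 0 * T l 2) = 0 := by
  have hTi : ∀ k, T i k = 0 := by
    intro k
    rw [hT, Xt_self p hp]
    simp
  by_cases hij : i = j
  · subst hij
    simp only [hTi]
    ring
  by_cases hil : i = l
  · subst hil
    simp only [hTi]
    ring
  by_cases hjl : j = l
  · subst hjl
    ring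
  have hS : ∀ i j : Fin 6, i ≠ j → _ := fun i j hij =>
    S_eqs w hw (Xt p i j) (det_Xt hp i j) (fun a b => S_frames w F p hp2 i j hij a b)
  obtain ⟨f1, f2, f3, f4⟩ := hS i j hij
  obtain ⟨g1, g2, g3, g4⟩ := hS i l hil
  obtain ⟨h1, h2, h3, h4⟩ := hS j l hjl
  have hd : ∀ i j k, Xt p i j k 0 0 * Xt p i j k 1 1 - Xt p i j k 0 1 * Xt p i j k 1 0 = 1 := by
    intro i j k
    have := det_Xt hp i j k
    rw [Matrix.det_fin_two] at this
    exact this
  have w00 : ∀ k, Xt p j l k 0 0 =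
      Xt p i j k 1 1 * Xt p i l k 0 0 - Xt p i j k 0 1 * Xt p i l k 1 0 := by
    intro k
    rw [Xt_trans p hp i j l k, Matrix.mul_apply, Fin.sum_univ_two, Matrix.adjugate_fin_two]
    simp only [Matrix.of_apply, Matrix.cons_val', Matrix.cons_val_zero, Matrix.cons_val_one,
      Matrix.cons_val_fin_one]
    ring
  have w01 : ∀ k, Xt p j l k 0 1 =
      Xt p i j k 1 1 * Xt p i l k 0 1 - Xt p i j k 0 1 * Xt p i l k 1 1 := by
    intro k
    rw [Xt_trans p hp i j l k, Matrix.mul_apply, Fin.sum_univ_two, Matrix.adjugate_fin_two]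
    simp only [Matrix.of_apply, Matrix.cons_val', Matrix.cons_val_zero, Matrix.cons_val_one,
      Matrix.cons_val_fin_one]
    ring
  have w10 : ∀ k, Xt p j l k 1 0 =
      Xt p i j k 0 0 * Xt p i l k 1 0 - Xt p i j k 1 0 * Xt p i l k 0 0 := by
    intro k
    rw [Xt_trans p hp i j l k, Matrix.mul_apply, Fin.sum_univ_two, Matrix.adjugate_fin_two]
    simp only [Matrix.of_apply, Matrix.cons_val', Matrix.cons_val_zero, Matrix.cons_val_one,
      Matrix.cons_val_fin_one]
    ring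
  have w11 : ∀ k, Xt p j l k 1 1 =
      Xt p i j k 0 0 * Xt p i l k 1 1 - Xt p i j k 1 0 * Xt p i l k 0 1 := by
    intro k
    rw [Xt_trans p hp i j l k, Matrix.mul_apply, Fin.sum_univ_two, Matrix.adjugate_fin_two]
    simp only [Matrix.of_apply, Matrix.cons_val', Matrix.cons_val_zero, Matrix.cons_val_one,
      Matrix.cons_val_fin_one]
    ring
  simp only [w00, w01, w10, w11] at h1 h2 h3 h4
  simp only [hT]
  exact polyL1 _ _ _ _ _ _ _ _ _ _ _ _ _ _ _ _ _ _ _ _ _ _ _ _ f1 f2 f3 f4 g1 g2 g3 g4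
    h1 h2 h3 h4 (hd i j 0) (hd i j 1) (hd i j 2) (hd i l 0) (hd i l 1) (hd i l 2)

theorem exists_gamma (T : Fin 6 → Fin 3 → ℂ)
    (hT : ∀ j l, (T j 0 * T l 1 - T j 1 * T l 0) + (T j 1 * T l 2 - T j 2 * T l 1) +
      (T j 2 * T l 0 - T j 0 * T l 2) = 0) :
    ∃ γ : Fin 3 → ℂ, γ ≠ 0 ∧ ∑ k, γ k = 0 ∧ ∀ j, ∑ k, γ k * T j k = 0 := by
  by_cases h : ∃ j, T j 1 - T j 0 ≠ 0 ∨ T j 2 - T j 0 ≠ 0
  · obtain ⟨j, hj⟩ := h
    refine ⟨![T j 2 - T j 1, T j 0 - T j 2, T j 1 - T j 0], ?_, ?_, ?_⟩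
    · intro h0
      have h1 := congrFun h0 1
      have h2 := congrFun h0 2
      simp at h1 h2
      rcases hj with hj | hj
      · exact hj h2
      · apply hj
        linear_combination -h1
    · rw [Fin.sum_univ_three]
      simp
    · intro l
      rw [Fin.sum_univ_three]
      simp only [Matrix.cons_val_zero, Matrix.cons_val_one, Matrix.cons_val_two, Matrix.tail_cons,
        Matrix.head_cons, Matrix.cons_val]
      linear_combination hT j l
  · push Not at h
    refine ⟨![-1, 1, 0], ?_, ?_, ?_⟩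
    · intro h0
      have h1 := congrFun h0 1
      simp at h1
    · rw [Fin.sum_univ_three]
      simp
    · intro l
      rw [Fin.sum_univ_three]
      simp only [Matrix.cons_val_zero, Matrix.cons_val_one, Matrix.cons_val_two, Matrix.tail_cons,
        Matrix.head_cons, Matrix.cons_val]
      linear_combination (h l).1

/-- There is no frame family. -/
theorem no_frames (n : ℕ) (G : Fin n → Matrix I6 I6 ℂ) (F : FrameFamily n G) : False := by
  have hn : n = 7 := seven F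
  subst hn
  obtain ⟨w, hw⟩ : ∃ w : ℂ, w ^ 2 + w + 1 = 0 := by
    obtain ⟨s, hs⟩ := IsAlgClosed.exists_pow_nat_eq (-3 : ℂ) (n := 2) (by norm_num)
    refine ⟨(-1 + s) / 2, ?_⟩
    linear_combination (1 / 4 : ℂ) * hs
  have F' := normalise F
  have h0 : (fun i => sa (G 0) * G i) 0 = 1 := unit_symm (F.unit 0)
  obtain ⟨p, hp, hp2⟩ := exists_p w hw F' h0
  apply no_three_gram (Gr p)
  · exact Gr_symm p
  · exact Gr_diag p hp
  · exact Gr_prod w hw F' h0 p hp2
  · intro i
    obtain ⟨γ, hγ, hs, hr⟩ := exists_gamma (fun j k => Xt p i j k 0 1 * Xt p i j k 1 0)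
      (fun j l => cross_rel w hw F' p hp hp2 i j l _ (fun _ _ => rfl))
    refine ⟨γ, hγ, hs, ?_⟩
    intro j
    have : ∀ k, γ k * Gr p k i j = γ k + 2 * (γ k * (Xt p i j k 0 1 * Xt p i j k 1 0)) := by
      intro k
      rw [Gr_eq p hp]
      ring
    simp only [this, Finset.sum_add_distrib, ← Finset.mul_sum]
    rw [hs, hr j]
    ring

end Pool.Agent.OD
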