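import Mathlib
import Pool.Agent.OD.Final
import Pool.Agent.OD.Cartan

set_option autoImplicit false

/-! From an orthogonal decomposition of sp_6 to a frame family. -/

namespace Pool.Agent.OD

open Matrix

attribute [local instance 100] LieRing.ofAssociativeRing

theorem Dg_sum (t : Fin 3 → ℂ) : Dg t = ∑ a, t a • Dg (Pi.single a 1) := by
  ext ⟨k, α⟩ ⟨l, β⟩
  rw [Matrix.sum_apply]
  simp only [Matrix.smul_apply, Dg, Fin.sum_univ_three]
  fin_cases k <;> fin_cases l <;> fin_cases α <;> fin_cases β <;> simp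

theorem frames_of_decomp (n : ℕ) (H : Fin n → LieSubalgebra ℂ Lsp)
    (hC : ∀ i, (H i).IsCartanSubalgebra)
    (hI : DirectSum.IsInternal (fun i => (H i).toSubmodule))
    (ho : ∀ i j, i ≠ j → ∀ x ∈ H i, ∀ y ∈ H j, killingForm ℂ Lsp x y = 0) :
    ∃ G : Fin n → Matrix I6 I6 ℂ, FrameFamily n G := by
  have h1 : ∀ i, ∃ G : Matrix I6 I6 ℂ, G * sa G = 1 ∧ sa G * G = 1 ∧
      ∀ x : Lsp, x ∈ H i ↔ ∃ t : Fin 3 → ℂ, (x : Matrix I6 I6 ℂ) = G * Dg t * sa G := by
    intro i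
    haveI := hC i
    exact cartan_form (H i)
  choose G hG hG' hx using h1
  have hmem : ∀ i a, hh (G i) a ∈ Lsp := by
    intro i a
    rw [mem_Lsp]
    exact sa_hh _ _
  have hmemH : ∀ i a, (⟨hh (G i) a, hmem i a⟩ : Lsp) ∈ H i := by
    intro i a
    rw [hx]
    exact ⟨Pi.single a 1, rfl⟩
  refine ⟨G, hG, ?_, ?_⟩
  · intro i j hij a b
    have h := ho i j hij _ (hmemH i a) _ (hmemH j b)
    rw [killingForm_Lsp] at h
    have h8 : (8 : ℂ) ≠ 0 := by norm_num
    exact (mul_eq_zero.1 h).resolve_left h8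
  · intro Z hZ
    have hZ' : Z ∈ Lsp := (mem_Lsp Z).2 hZ
    have htop : (⟨Z, hZ'⟩ : Lsp) ∈ (⨆ i, (H i).toSubmodule : Submodule ℂ Lsp) := by
      rw [hI.submodule_iSup_eq_top]
      exact Submodule.mem_top
    rw [Submodule.mem_iSup_iff_exists_finsupp] at htop
    obtain ⟨f, hf, hsum⟩ := htop
    have h2 : ∀ i, ∃ t : Fin 3 → ℂ, ((f i : Lsp) : Matrix I6 I6 ℂ) = G i * Dg t * sa (G i) := by
      intro i
      exact (hx i (f i)).1 (hf i)
    choose t ht using h2
    refine ⟨t, ?_⟩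
    have h3 : Z = ∑ i, ((f i : Lsp) : Matrix I6 I6 ℂ) := by
      have h4 : f.sum (fun _ x => x) = ∑ i, f i := Finsupp.sum_fintype _ _ (fun _ => rfl)
      rw [h4] at hsum
      have h5 := congrArg (fun x : Lsp => (x : Matrix I6 I6 ℂ)) hsum
      simp only at h5
      rw [← h5]
      exact (map_sum (Lsp.toSubmodule.subtype) (fun i => f i) Finset.univ)
    rw [h3]
    apply Finset.sum_congr rfl
    intro i _
    rw [ht i, Dg_sum (t i), Matrix.mul_sum, Matrix.sum_mul]
    apply Finset.sum_congr rfl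
    intro a _
    rw [Matrix.mul_smul, Matrix.smul_mul]
    rfl

end Pool.Agent.OD
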