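import Pool.Agent.OD.Simple

set_option autoImplicit false

/-! The Killing form of the symplectic Lie algebra sp_6 is 8 times the trace form. -/

namespace Pool.Agent.OD

open Matrix

attribute [local instance 100] LieRing.ofAssociativeRing

theorem trace_mat (f : Matrix I6 I6 ℂ →ₗ[ℂ] Matrix I6 I6 ℂ) :
    LinearMap.trace ℂ _ f = ∑ p : I6, ∑ q : I6, f (Matrix.single p q 1) p q := by
  rw [LinearMap.trace_eq_matrix_trace ℂ (Matrix.stdBasis ℂ I6 I6), Matrix.trace,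
    Fintype.sum_prod_type]
  refine Finset.sum_congr rfl fun p _ => Finset.sum_congr rfl fun q _ => ?_
  rw [Matrix.diag_apply, LinearMap.toMatrix_apply, Matrix.stdBasis_eq_single]
  simp [Matrix.stdBasis]

theorem mul_single_mul_apply (A B : Matrix I6 I6 ℂ) (p q r s : I6) :
    (A * Matrix.single p q (1 : ℂ) * B : Matrix I6 I6 ℂ) r s = A r p * B q s := by
  rw [Matrix.single_eq_single_vecMulVec_single, Matrix.mul_vecMulVec, Matrix.vecMulVec_mul,
    vecMulVec_apply]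
  simp

/-- The map Z ↦ A Z B. -/
def LR (A B : Matrix I6 I6 ℂ) : Matrix I6 I6 ℂ →ₗ[ℂ] Matrix I6 I6 ℂ where
  toFun Z := A * Z * B
  map_add' X Y := by simp [Matrix.mul_add, Matrix.add_mul]
  map_smul' c X := by simp

/-- The symplectic adjoint as a linear map. -/
def saL : Matrix I6 I6 ℂ →ₗ[ℂ] Matrix I6 I6 ℂ where
  toFun Z := sa Z
  map_add' X Y := sa_add X Y
  map_smul' c X := sa_smul c X

theorem trace_LR (A B : Matrix I6 I6 ℂ) : LinearMap.trace ℂ _ (LR A B) = A.trace * B.trace := by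
  rw [trace_mat, Matrix.trace, Matrix.trace, Finset.sum_mul_sum]
  refine Finset.sum_congr rfl fun p _ => Finset.sum_congr rfl fun q _ => ?_
  exact mul_single_mul_apply A B p q p q

theorem trace_LR_sa (A B : Matrix I6 I6 ℂ) :
    LinearMap.trace ℂ _ (LR A B ∘ₗ saL) = - (A * sa B).trace := by
  rw [trace_mat]
  have h : ∀ p q : I6, (LR A B ∘ₗ saL) (Matrix.single p q 1) p q = - ((A * Om) p q * (Om * B) p q) := by
    intro p q
    change (A * (-(Om * (Matrix.single p q (1 : ℂ))ᵀ * Om)) * B : Matrix I6 I6 ℂ) p q = _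
    rw [Matrix.transpose_single]
    have : A * (-(Om * (Matrix.single q p (1 : ℂ)) * Om)) * B =
        -((A * Om) * (Matrix.single q p (1 : ℂ)) * (Om * B)) := by
      simp only [Matrix.mul_assoc, Matrix.mul_neg, Matrix.neg_mul]
    rw [this, Matrix.neg_apply, mul_single_mul_apply]
  simp_rw [h]
  have h2 : A * sa B = (A * Om) * (Om * B)ᵀ := by
    rw [sa, Matrix.transpose_mul, Om_transpose]
    simp only [Matrix.mul_assoc, Matrix.mul_neg]
  rw [h2, Matrix.trace]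
  simp only [Finset.sum_neg_distrib, Matrix.diag_apply, Matrix.mul_apply (M := A * Om),
    Matrix.transpose_apply]

/-- Projection of matrices onto the symplectic Lie algebra. -/
noncomputable def prL : Matrix I6 I6 ℂ →ₗ[ℂ] Lsp where
  toFun Z := ⟨(1/2 : ℂ) • (Z - sa Z), by
    rw [mem_Lsp, sa_smul, sa_sub, sa_sa, ← smul_neg, neg_sub]⟩
  map_add' X Y := by
    apply Subtype.ext
    change (1/2 : ℂ) • (X + Y - sa (X + Y)) = (1/2 : ℂ) • (X - sa X) + (1/2 : ℂ) • (Y - sa Y)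
    rw [sa_add, ← smul_add]
    congr 1
    abel
  map_smul' c X := by
    apply Subtype.ext
    change (1/2 : ℂ) • (c • X - sa (c • X)) = c • ((1/2 : ℂ) • (X - sa X))
    rw [sa_smul, ← smul_sub, smul_comm]

theorem prL_coe (x : Lsp) : prL (x : Matrix I6 I6 ℂ) = x := by
  apply Subtype.ext
  change (1/2 : ℂ) • ((x : Matrix I6 I6 ℂ) - sa x) = x
  rw [(mem_Lsp _).mp x.2, sub_neg_eq_add, ← two_smul ℂ, smul_smul]
  norm_num

theorem trace_Lsp (x : Lsp) : (x : Matrix I6 I6 ℂ).trace = 0 := by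
  have h := trace_sa (x : Matrix I6 I6 ℂ)
  rw [(mem_Lsp _).mp x.2, Matrix.trace_neg] at h
  have h2 : (2 : ℂ) * (x : Matrix I6 I6 ℂ).trace = 0 := by linear_combination -h
  simpa using h2

/-- The Killing form of sp_6. -/
theorem killingForm_Lsp (x y : Lsp) :
    killingForm ℂ Lsp x y = 8 * ((x : Matrix I6 I6 ℂ) * (y : Matrix I6 I6 ℂ)).trace := by
  set X : Matrix I6 I6 ℂ := (x : Matrix I6 I6 ℂ) with hX
  set Y : Matrix I6 I6 ℂ := (y : Matrix I6 I6 ℂ) with hY
  rw [killingForm_apply_apply]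
  let inc : Lsp →ₗ[ℂ] Matrix I6 I6 ℂ := (Lsp.incl : Lsp →ₗ[ℂ] Matrix I6 I6 ℂ)
  have h1 : (LieAlgebra.ad ℂ Lsp x ∘ₗ LieAlgebra.ad ℂ Lsp y) =
      (LieAlgebra.ad ℂ Lsp x ∘ₗ LieAlgebra.ad ℂ Lsp y ∘ₗ prL) ∘ₗ inc := by
    ext1 z
    simp only [LinearMap.comp_apply]
    congr 2
    exact (prL_coe z).symm
  rw [h1, LinearMap.trace_comp_comm']
  have h2 : inc ∘ₗ LieAlgebra.ad ℂ Lsp x ∘ₗ LieAlgebra.ad ℂ Lsp y ∘ₗ prL =
      (1/2 : ℂ) • ((LR (X * Y) 1 - LR X Y - LR Y X + LR 1 (Y * X)) -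
        (LR (X * Y) 1 ∘ₗ saL - LR X Y ∘ₗ saL - LR Y X ∘ₗ saL + LR 1 (Y * X) ∘ₗ saL)) := by
    ext1 Z
    change ⁅X, ⁅Y, (1/2 : ℂ) • (Z - sa Z)⁆⁆ = (1/2 : ℂ) • (((X * Y) * Z * 1 - X * Z * Y - Y * Z * X
      + 1 * Z * (Y * X)) - ((X * Y) * sa Z * 1 - X * sa Z * Y - Y * sa Z * X
      + 1 * sa Z * (Y * X)))
    rw [lie_smul, lie_smul]
    congr 1
    rw [LieRing.of_associative_ring_bracket, LieRing.of_associative_ring_bracket]
    noncomm_ring
  rw [h2]
  simp only [map_smul, map_sub, map_add, trace_LR, trace_LR_sa]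
  rw [hX, hY, trace_Lsp, trace_Lsp, (mem_Lsp _).mp x.2, (mem_Lsp _).mp y.2, sa_one, sa_mul,
    (mem_Lsp _).mp x.2, (mem_Lsp _).mp y.2, neg_mul_neg]
  simp only [Matrix.mul_neg, Matrix.mul_one, Matrix.one_mul, Matrix.trace_neg, Matrix.trace_one,
    Matrix.trace_mul_comm (y : Matrix I6 I6 ℂ) (x : Matrix I6 I6 ℂ)]
  simp
  ring

theorem trace_mul_eq_zero_of_forall {X : Matrix I6 I6 ℂ} (hX : X ∈ Lsp)
    (h : ∀ Y ∈ Lsp, (X * Y).trace = 0) : X = 0 := by
  have h1 : ∀ Z : Matrix I6 I6 ℂ, (X * Z).trace = 0 := by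
    intro Z
    have e1 : (X * (prL Z : Matrix I6 I6 ℂ)).trace = 0 := h _ (prL Z).2
    have e2 : (prL Z : Matrix I6 I6 ℂ) = (1/2 : ℂ) • (Z - sa Z) := rfl
    have e3 : (X * sa Z).trace = - (X * Z).trace := by
      rw [← trace_sa, sa_mul, sa_sa, (mem_Lsp _).mp hX, Matrix.mul_neg, Matrix.trace_neg,
        Matrix.trace_mul_comm]
    rw [e2, Matrix.mul_smul, Matrix.mul_sub, Matrix.trace_smul, Matrix.trace_sub, e3] at e1
    simp only [smul_eq_mul] at e1
    linear_combination e1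
  ext p q
  have := h1 (Matrix.single q p 1)
  have h2 : (X * Matrix.single q p (1 : ℂ)).trace = X p q := by
    have h3 : ∀ r : I6, (X * Matrix.single q p (1 : ℂ)) r r = X r q * (1 : Matrix I6 I6 ℂ) p r := by
      intro r
      rw [← mul_single_mul_apply, Matrix.mul_one]
    simp only [Matrix.trace, Matrix.diag_apply, h3, Matrix.one_apply]
    simp
  rw [← h2, this, Matrix.zero_apply]

instance isKilling_Lsp : LieAlgebra.IsKilling ℂ Lsp where
  killingCompl_top_eq_bot := by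
    rw [LieSubmodule.eq_bot_iff]
    intro x hx
    rw [LieIdeal.mem_killingCompl] at hx
    apply Subtype.ext
    apply trace_mul_eq_zero_of_forall x.2
    intro Y hY
    have := hx ⟨Y, hY⟩ (by simp)
    rw [killingForm_Lsp, Matrix.trace_mul_comm] at this
    simpa using this

end Pool.Agent.OD
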