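import Pool.Agent.OD.Defs

set_option autoImplicit false

/-! Simplicity of the symplectic Lie algebra sp_6 over the complex numbers. -/

namespace Pool.Agent.OD

open Matrix

attribute [local instance 100] LieRing.ofAssociativeRing

/-- The symplectic form on vectors. -/
def w (u v : I6 → ℂ) : ℂ := u ⬝ᵥ (Om *ᵥ v)

/-- The rank one element attached to a vector. -/
def Sq (u : I6 → ℂ) : Matrix I6 I6 ℂ := vecMulVec u u * Om

theorem vmv_mul_mul_vmv (u v x y : I6 → ℂ) (A : Matrix I6 I6 ℂ) :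
    vecMulVec u v * A * vecMulVec x y = (v ⬝ᵥ (A *ᵥ x)) • vecMulVec u y := by
  rw [Matrix.mul_assoc, Matrix.mul_vecMulVec, Matrix.vecMulVec_mul_vecMulVec]
  ext i j
  simp only [Matrix.smul_apply, vecMulVec_apply, smul_eq_mul, Pi.smul_apply]
  ring

theorem w_swap (u v : I6 → ℂ) : w u v = - w v u := by
  unfold w
  rw [Matrix.dotProduct_mulVec, dotProduct_comm, ← Matrix.mulVec_transpose, Om_transpose,
    Matrix.neg_mulVec, dotProduct_neg]

theorem w_self (u : I6 → ℂ) : w u u = 0 := by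
  have h := w_swap u u
  have h2 : (2 : ℂ) * w u u = 0 := by linear_combination h
  simpa using h2

theorem w_add_left (u v x : I6 → ℂ) : w (u + v) x = w u x + w v x := by
  simp [w, add_dotProduct]

theorem w_add_right (u v x : I6 → ℂ) : w x (u + v) = w x u + w x v := by
  simp [w, Matrix.mulVec_add, dotProduct_add]

theorem w_smul_left (c : ℂ) (u v : I6 → ℂ) : w (c • u) v = c * w u v := by
  simp [w, smul_dotProduct]

theorem w_smul_right (c : ℂ) (u v : I6 → ℂ) : w u (c • v) = c * w u v := by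
  simp [w, Matrix.mulVec_smul, dotProduct_smul]

theorem w_neg_right (u v : I6 → ℂ) : w u (-v) = - w u v := by
  simp [w, Matrix.mulVec_neg]

theorem Om_Om_mulVec (u : I6 → ℂ) : Om *ᵥ (Om *ᵥ u) = - u := by
  rw [Matrix.mulVec_mulVec, Om_mul_Om]; simp [Matrix.neg_mulVec]

theorem exists_w_ne_zero {u : I6 → ℂ} (hu : u ≠ 0) : ∃ v, w u v ≠ 0 := by
  by_contra h
  push Not at h
  apply hu
  ext p
  have := h (- (Om *ᵥ (Pi.single p 1)))
  rw [w_neg_right] at this
  unfold w at this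
  rw [Om_Om_mulVec] at this
  simpa using this

theorem Sq_mem (u : I6 → ℂ) : Sq u ∈ Lsp := by
  rw [mem_Lsp, sa, Sq, Matrix.transpose_mul, Om_transpose]
  have : (vecMulVec u u)ᵀ = vecMulVec u u := by
    ext i j; simp [vecMulVec_apply, mul_comm]
  rw [this]
  have h : Om * (-Om * vecMulVec u u) * Om = - ((Om * Om) * vecMulVec u u * Om) := by
    simp only [Matrix.neg_mul, Matrix.mul_neg, Matrix.mul_assoc]
  rw [h, Om_mul_Om]
  simp

theorem Sq_mul_Sq (u : I6 → ℂ) : Sq u * Sq u = 0 := by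
  unfold Sq
  rw [← Matrix.mul_assoc, vmv_mul_mul_vmv]
  have : u ⬝ᵥ (Om *ᵥ u) = 0 := w_self u
  rw [this]; simp

theorem Sq_mul_mul_Sq (u : I6 → ℂ) (X : Matrix I6 I6 ℂ) :
    Sq u * X * Sq u = (w u (X *ᵥ u)) • Sq u := by
  unfold Sq
  have : vecMulVec u u * Om * X * (vecMulVec u u * Om) =
      (vecMulVec u u * (Om * X) * vecMulVec u u) * Om := by
    simp only [Matrix.mul_assoc]
  rw [this, vmv_mul_mul_vmv, Matrix.smul_mul, w, Matrix.mulVec_mulVec]

/-- The key bracket identity. -/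
theorem Sq_bracket (u : I6 → ℂ) (X : Matrix I6 I6 ℂ) :
    ⁅Sq u, ⁅Sq u, X⁆⁆ = (-2 * w u (X *ᵥ u)) • Sq u := by
  rw [LieRing.of_associative_ring_bracket, LieRing.of_associative_ring_bracket]
  have h : Sq u * (Sq u * X - X * Sq u) - (Sq u * X - X * Sq u) * Sq u =
      (Sq u * Sq u) * X - (2 : ℂ) • (Sq u * X * Sq u) + X * (Sq u * Sq u) := by
    rw [two_smul]
    noncomm_ring
  rw [h, Sq_mul_Sq, Sq_mul_mul_Sq]
  simp [smul_smul]

theorem Sq_mulVec (u v : I6 → ℂ) : Sq u *ᵥ v = (w u v) • u := by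
  unfold Sq w
  rw [← Matrix.mulVec_mulVec]
  ext i
  simp [Matrix.mulVec, vecMulVec, dotProduct, Finset.mul_sum, mul_assoc, mul_comm,
    mul_left_comm]

/-- The symmetric matrix of an element of sp. -/
theorem exists_w_X {X : Matrix I6 I6 ℂ} (hX : X ∈ Lsp) (h0 : X ≠ 0) :
    ∃ u, w u (X *ᵥ u) ≠ 0 := by
  by_contra h
  push Not at h
  apply h0
  -- polarisation
  have hsym : ∀ u v : I6 → ℂ, w u (X *ᵥ v) = w v (X *ᵥ u) := by
    intro u v
    rw [mem_Lsp] at hX
    have hX' : Om * X = (Om * X)ᵀ := by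
      rw [Matrix.transpose_mul, Om_transpose, Matrix.mul_neg]
      unfold sa at hX
      have h1 : X = Om * Xᵀ * Om := by rw [← neg_inj, ← hX]
      have h2 : Om * X = (Om * Om) * Xᵀ * Om := by
        conv_lhs => rw [h1]
        simp only [Matrix.mul_assoc]
      rw [h2, Om_mul_Om]; simp
    unfold w
    rw [Matrix.mulVec_mulVec, Matrix.mulVec_mulVec, Matrix.dotProduct_mulVec,
      dotProduct_comm, ← Matrix.mulVec_transpose, ← hX']
  have hpol : ∀ u v : I6 → ℂ, w u (X *ᵥ v) = 0 := by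
    intro u v
    have h1 := h (u + v)
    rw [Matrix.mulVec_add, w_add_left, w_add_right, w_add_right, h u, h v, hsym v u] at h1
    have : (2 : ℂ) * w u (X *ᵥ v) = 0 := by linear_combination h1
    simpa using this
  have hz : ∀ v : I6 → ℂ, X *ᵥ v = 0 := by
    intro v
    by_contra hne
    obtain ⟨u, hu⟩ := exists_w_ne_zero hne
    apply hu
    rw [w_swap, hpol u v, neg_zero]
  ext i j
  have := congrFun (hz (Pi.single j 1)) i
  simpa using this

/-- every element of sp is a combination of rank one elements -/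
theorem Lsp_eq_sum {X : Matrix I6 I6 ℂ} (hX : X ∈ Lsp) :
    X = ∑ p : I6, ∑ q : I6, ((-(X * Om)) p q / 2) •
      (Sq (Pi.single p 1 + Pi.single q 1) - Sq (Pi.single p 1) - Sq (Pi.single q 1)) := by
  have hY : (-(X * Om))ᵀ = -(X * Om) := by
    rw [mem_Lsp, sa] at hX
    rw [Matrix.transpose_neg, Matrix.transpose_mul, Om_transpose]
    have h1 : X = Om * Xᵀ * Om := by rw [← neg_inj, ← hX]
    have h2 : X * Om = Om * Xᵀ * (Om * Om) := by
      conv_lhs => rw [h1]
      simp only [Matrix.mul_assoc]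
    rw [h2, Om_mul_Om]; simp
  set Y := -(X * Om) with hYdef
  have hXY : X = Y * Om := by
    rw [hYdef, Matrix.neg_mul, Matrix.mul_assoc, Om_mul_Om]; simp
  have hsum : Y = ∑ p : I6, ∑ q : I6, (Y p q / 2) •
      (vecMulVec (Pi.single p 1 + Pi.single q 1) (Pi.single p 1 + Pi.single q 1)
        - vecMulVec (Pi.single p 1) (Pi.single p 1) -
        vecMulVec (Pi.single q 1 : I6 → ℂ) (Pi.single q 1)) := by
    have hsingle : ∀ p q : I6, (vecMulVec (Pi.single p 1 + Pi.single q 1)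
        (Pi.single p 1 + Pi.single q 1)
        - vecMulVec (Pi.single p 1) (Pi.single p 1) -
        vecMulVec (Pi.single q 1 : I6 → ℂ) (Pi.single q 1) : Matrix I6 I6 ℂ) =
        Matrix.single p q 1 + Matrix.single q p 1 := by
      intro p q
      rw [Matrix.single_eq_single_vecMulVec_single, Matrix.single_eq_single_vecMulVec_single]
      simp only [Matrix.add_vecMulVec, Matrix.vecMulVec_add]
      abel
    simp_rw [hsingle]
    have e1 : ∑ p : I6, ∑ q : I6, (Y p q / 2) • (Matrix.single p q (1:ℂ) + Matrix.single q p 1) =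
        ∑ p : I6, ∑ q : I6, (Matrix.single p q (Y p q / 2)) +
        ∑ p : I6, ∑ q : I6, (Matrix.single p q (Y p q / 2)) := by
      have : ∑ p : I6, ∑ q : I6, (Y p q / 2) • (Matrix.single p q (1:ℂ) + Matrix.single q p 1) =
        ∑ p : I6, ∑ q : I6, (Matrix.single p q (Y p q / 2)) +
        ∑ p : I6, ∑ q : I6, (Matrix.single q p (Y p q / 2)) := by
        simp [smul_add, Finset.sum_add_distrib, Matrix.smul_single]
      rw [this]
      congr 1
      rw [Finset.sum_comm]
      refine Finset.sum_congr rfl fun p _ => Finset.sum_congr rfl fun q _ => ?_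
      have : Y q p = Y p q := by
        conv_rhs => rw [← hY]
        rfl
      rw [this]
    rw [e1, ← Finset.sum_add_distrib]
    conv_lhs => rw [Matrix.matrix_eq_sum_single Y]
    refine Finset.sum_congr rfl fun p _ => ?_
    rw [← Finset.sum_add_distrib]
    refine Finset.sum_congr rfl fun q _ => ?_
    rw [← Matrix.single_add]
    congr 1
    ring
  conv_lhs => rw [hXY, hsum]
  simp only [Finset.sum_mul, Matrix.smul_mul, Matrix.sub_mul, Sq]

theorem Lsp_bracket_coe (x y : Lsp) : ((⁅x, y⁆ : Lsp) : Matrix I6 I6 ℂ) = ⁅(x : Matrix I6 I6 ℂ), (y : Matrix I6 I6 ℂ)⁆ :=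
  rfl

/-- The rank one element as an element of the Lie algebra. -/
def SqL (u : I6 → ℂ) : Lsp := ⟨Sq u, Sq_mem u⟩

theorem SqL_bracket (u : I6 → ℂ) (X : Lsp) :
    ⁅SqL u, ⁅SqL u, X⁆⁆ = (-2 * w u ((X : Matrix I6 I6 ℂ) *ᵥ u)) • SqL u := by
  apply Subtype.ext
  exact Sq_bracket u X

theorem ideal_step {I : LieIdeal ℂ Lsp} {u : I6 → ℂ} {X : Lsp} (hX : X ∈ I)
    (h : w u ((X : Matrix I6 I6 ℂ) *ᵥ u) ≠ 0) : SqL u ∈ I := by
  have h1 : ⁅SqL u, ⁅SqL u, X⁆⁆ ∈ I := lie_mem_right ℂ Lsp I _ _ (lie_mem_right ℂ Lsp I _ _ hX)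
  rw [SqL_bracket] at h1
  have h2 : (-2 * w u ((X : Matrix I6 I6 ℂ) *ᵥ u)) ≠ 0 := by
    simpa using h
  have h3 := I.smul_mem (-2 * w u ((X : Matrix I6 I6 ℂ) *ᵥ u))⁻¹ h1
  rwa [smul_smul, inv_mul_cancel₀ h2, one_smul] at h3

theorem ideal_step2 {I : LieIdeal ℂ Lsp} {u v : I6 → ℂ} (hu : SqL u ∈ I)
    (h : w u v ≠ 0) : SqL v ∈ I := by
  apply ideal_step hu
  change w v (Sq u *ᵥ v) ≠ 0
  rw [Sq_mulVec, w_smul_right, w_swap v u]
  simpa using h

theorem ideal_step3 {I : LieIdeal ℂ Lsp} {u : I6 → ℂ} (hu0 : u ≠ 0) (hu : SqL u ∈ I)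
    (v : I6 → ℂ) (hv0 : v ≠ 0) : SqL v ∈ I := by
  obtain ⟨x, hx⟩ := exists_w_ne_zero hu0
  obtain ⟨y, hy⟩ := exists_w_ne_zero hv0
  have key : ∀ z, w u z ≠ 0 → w v z ≠ 0 → SqL v ∈ I := by
    intro z h1 h2
    apply ideal_step2 (ideal_step2 hu h1)
    rw [w_swap]
    simpa using h2
  by_cases h1 : w v x = 0
  · by_cases h2 : w u y = 0
    · apply key (x + y)
      · rw [w_add_right, h2, add_zero]; exact hx
      · rw [w_add_right, h1, zero_add]; exact hy
    · exact key y h2 hy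
  · exact key x hx h1

theorem SqL_zero : SqL 0 = 0 := by
  apply Subtype.ext
  simp [SqL, Sq]

instance isSimple_Lsp : LieAlgebra.IsSimple ℂ Lsp where
  eq_bot_or_eq_top := by
    intro I
    by_cases hI : I = ⊥
    · exact Or.inl hI
    · right
      have hex : ∃ X : Lsp, X ∈ I ∧ X ≠ 0 := by
        by_contra hcon
        push Not at hcon
        exact hI ((LieSubmodule.eq_bot_iff I).mpr hcon)
      obtain ⟨X, hXI, hX0⟩ := hex
      have hX0' : (X : Matrix I6 I6 ℂ) ≠ 0 := fun h => hX0 (Subtype.ext h)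
      obtain ⟨u, hu⟩ := exists_w_X X.2 hX0'
      have hu0 : u ≠ 0 := by
        rintro rfl
        simp [w] at hu
      have hall : ∀ v, SqL v ∈ I := by
        intro v
        by_cases hv : v = 0
        · rw [hv, SqL_zero]; exact I.zero_mem
        · exact ideal_step3 hu0 (ideal_step hXI hu) v hv
      rw [eq_top_iff]
      intro Z _
      have hZ : Z = ∑ p : I6, ∑ q : I6, ((-((Z : Matrix I6 I6 ℂ) * Om)) p q / 2) •
          (SqL (Pi.single p 1 + Pi.single q 1) - SqL (Pi.single p 1) - SqL (Pi.single q 1)) := by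
        apply Subtype.ext
        conv_lhs => rw [Lsp_eq_sum Z.2]
        have hc : ∀ (f : I6 → I6 → Lsp), ((∑ p : I6, ∑ q : I6, f p q : Lsp) : Matrix I6 I6 ℂ) =
            ∑ p : I6, ∑ q : I6, ((f p q : Lsp) : Matrix I6 I6 ℂ) := by
          intro f
          have h1 : ∀ (g : I6 → Lsp), ((∑ q : I6, g q : Lsp) : Matrix I6 I6 ℂ) =
              ∑ q : I6, ((g q : Lsp) : Matrix I6 I6 ℂ) := fun g => map_sum (Lsp.incl : Lsp →ₗ[ℂ] Matrix I6 I6 ℂ) g Finset.univ
          rw [h1]
          exact Finset.sum_congr rfl fun p _ => h1 _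
        rw [hc]
        rfl
      rw [hZ]
      refine I.toSubmodule.sum_mem fun p _ => I.toSubmodule.sum_mem fun q _ => ?_
      exact I.smul_mem _ (I.sub_mem (I.sub_mem (hall _) (hall _)) (hall _))
  non_abelian := by
    intro h
    obtain ⟨v, hv⟩ := exists_w_ne_zero (u := Pi.single ((0 : Fin 3), (0 : Fin 2)) 1)
      (by intro h; simpa using congrFun h (0, 0))
    have h1 := SqL_bracket v (SqL (Pi.single (0,0) 1))
    rw [trivial_lie_zero] at h1
    have h2 := congrArg (Subtype.val) h1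
    have h3 : (-2 * w v (Sq (Pi.single (0,0) 1) *ᵥ v)) • Sq v = 0 := h2.symm
    rw [Sq_mulVec, w_smul_right, w_swap v] at h3
    rcases smul_eq_zero.mp h3 with h4 | h4
    · simp at h4; exact hv h4
    · have := congrArg (fun M => M *ᵥ (Pi.single (0,0) 1)) h4
      simp only [Matrix.zero_mulVec] at this
      rw [Sq_mulVec, w_swap v] at this
      rcases smul_eq_zero.mp this with h5 | h5
      · exact hv (by simpa using h5)
      · rw [h5] at hv; simp [w] at hv

end Pool.Agent.OD
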